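import Pool.Agent.Lib.MP_9b0515_pr.Main

set_option autoImplicit false

open Real MeasureTheory ProbabilityTheory
open scoped NNReal RealInnerProductSpace

namespace Pool.Agent.MP_9b0515_pr

/-- The weight in the first coordinate. -/
noncomputable def hw (n : ℕ) (i : Fin n) (x : Eu n) : ℝ := (1 + Real.sin (2 * π * x i)) / 2

theorem measurable_hw (n : ℕ) (i : Fin n) : Measurable (hw n i) := by
  unfold hw; fun_prop

theorem hw_nonneg (n : ℕ) (i : Fin n) (x : Eu n) : 0 ≤ hw n i x := by
  unfold hw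
  have := Real.neg_one_le_sin (2 * π * x i)
  linarith

theorem hw_le_one (n : ℕ) (i : Fin n) (x : Eu n) : hw n i x ≤ 1 := by
  unfold hw
  have := Real.sin_le_one (2 * π * x i)
  linarith

theorem integral_ite_Ioc (h c : ℝ) (h0 : 0 ≤ h) (h1 : h ≤ 1) :
    ∫ t in Set.Ioc (0 : ℝ) 1, (if t < h then c else 0) = h * c := by
  have e : (fun t : ℝ => if t < h then c else 0) = (Set.Iio h).indicator (fun _ => c) := by
    ext t
    by_cases ht : t < h
    · rw [if_pos ht, Set.indicator_of_mem (show t ∈ Set.Iio h from ht)]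
    · rw [if_neg ht, Set.indicator_of_notMem (show t ∉ Set.Iio h from ht)]
  rw [e, integral_indicator_const _ measurableSet_Iio, smul_eq_mul]
  congr 1
  rw [measureReal_def, Measure.restrict_apply measurableSet_Iio]
  have e2 : Set.Iio h ∩ Set.Ioc (0 : ℝ) 1 = Set.Ioo 0 h := by
    ext t
    simp only [Set.mem_inter_iff, Set.mem_Iio, Set.mem_Ioc, Set.mem_Ioo]
    constructor
    · rintro ⟨a, b, c⟩; exact ⟨b, a⟩
    · rintro ⟨a, b⟩; exact ⟨b, a, by linarith⟩
  rw [e2, Real.volume_Ioo, sub_zero, ENNReal.toReal_ofReal h0]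

theorem exists_level (n : ℕ) (hn : 3 ≤ n) (i : Fin n) (ρ : ℝ) (v : ℝ≥0) (hv : v ≠ 0) (ε : ℝ)
    (hneg : ∫ x, hw n i x * slab v ρ ε (ssum n x) ∂(gam n) < 0) :
    ∃ t : ℝ, ∫ x, (if t < hw n i x then slab v ρ ε (ssum n x) else 0) ∂(gam n) < 0 := by
  by_contra hcon
  push Not at hcon
  have hm : Measurable (Function.uncurry (fun (x : Eu n) (t : ℝ) =>
      if t < hw n i x then slab v ρ ε (ssum n x) else 0)) := by
    unfold Function.uncurry
    refine Measurable.ite ?_ ?_ measurable_const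
    · exact measurableSet_lt measurable_snd ((measurable_hw n i).comp measurable_fst)
    · exact (measurable_slab v hv ρ ε).comp ((measurable_ssum n).comp measurable_fst)
  have hint : Integrable (Function.uncurry (fun (x : Eu n) (t : ℝ) =>
      if t < hw n i x then slab v ρ ε (ssum n x) else 0))
      ((gam n).prod (volume.restrict (Set.Ioc (0 : ℝ) 1))) := by
    have : IsFiniteMeasure (volume.restrict (Set.Ioc (0 : ℝ) 1)) := by
      constructor
      rw [Measure.restrict_apply_univ]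
      simp
    refine integrable_of_bdd _ _ hm 1 (fun p => ?_)
    simp only [Function.uncurry]
    split_ifs
    · exact abs_slab_le v ρ ε _
    · simp
  have hswap := integral_integral_swap hint
  have h1 : ∫ x : Eu n, (∫ t in Set.Ioc (0 : ℝ) 1,
      (if t < hw n i x then slab v ρ ε (ssum n x) else 0)) ∂(gam n) =
      ∫ x, hw n i x * slab v ρ ε (ssum n x) ∂(gam n) := by
    refine integral_congr_ae (Filter.Eventually.of_forall fun x => ?_)
    exact integral_ite_Ioc _ _ (hw_nonneg n i x) (hw_le_one n i x)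
  rw [h1] at hswap
  have h2 : 0 ≤ ∫ t in Set.Ioc (0 : ℝ) 1,
      (∫ x : Eu n, (if t < hw n i x then slab v ρ ε (ssum n x) else 0) ∂(gam n)) :=
    integral_nonneg (fun t => hcon t)
  rw [← hswap] at h2
  linarith

/-- One half of the flipped set. -/
def Bt (n : ℕ) (i : Fin n) (ε t : ℝ) : Set (Eu n) :=
  {x | (0 < Int.fract (ssum n x) ∧ Int.fract (ssum n x) < ε) ∧ t < hw n i x}

theorem measurableSet_Bt (n : ℕ) (i : Fin n) (ε t : ℝ) : MeasurableSet (Bt n i ε t) := by
  have h1 : Measurable (fun x : Eu n => Int.fract (ssum n x)) :=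
    measurable_fract.comp (measurable_ssum n)
  exact ((measurableSet_lt measurable_const h1).inter (measurableSet_lt h1 measurable_const)).inter
    (measurableSet_lt measurable_const (measurable_hw n i))

/-- The flipped set. -/
def At (n : ℕ) (i : Fin n) (ε t : ℝ) : Set (Eu n) :=
  {x | x ∈ Bt n i ε t ∨ -x ∈ Bt n i ε t}

theorem measurableSet_At (n : ℕ) (i : Fin n) (ε t : ℝ) : MeasurableSet (At n i ε t) :=
  (measurableSet_Bt n i ε t).union (measurable_neg (measurableSet_Bt n i ε t))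

theorem mem_At_neg (n : ℕ) (i : Fin n) (ε t : ℝ) (x : Eu n) :
    -x ∈ At n i ε t ↔ x ∈ At n i ε t := by
  unfold At
  simp only [Set.mem_ofPred_eq, neg_neg]
  exact or_comm

theorem hw_sub_single (n : ℕ) (i j : Fin n) (x : Eu n) :
    hw n i (x - EuclideanSpace.single j (1 : ℝ)) = hw n i x := by
  unfold hw
  by_cases hij : i = j
  · subst hij
    have : (x - EuclideanSpace.single i (1 : ℝ)) i = x i - 1 := by simp
    rw [this, show 2 * π * (x i - 1) = 2 * π * x i - 2 * π by ring, Real.sin_sub_two_pi]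
  · have : (x - EuclideanSpace.single j (1 : ℝ)) i = x i := by simp [hij]
    rw [this]

theorem hw_add_single (n : ℕ) (i j : Fin n) (x : Eu n) :
    hw n i (x + EuclideanSpace.single j (1 : ℝ)) = hw n i x := by
  have := hw_sub_single n i j (x + EuclideanSpace.single j (1 : ℝ))
  rw [add_sub_cancel_right] at this
  exact this.symm

theorem ssum_add_single (n : ℕ) (x : Eu n) (i : Fin n) :
    ssum n (x + EuclideanSpace.single i (1 : ℝ)) = ssum n x + 1 := by
  have := ssum_sub_single n (x + EuclideanSpace.single i (1 : ℝ)) i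
  rw [add_sub_cancel_right] at this
  linarith

theorem mem_Bt_sub_single (n : ℕ) (i j : Fin n) (ε t : ℝ) (x : Eu n) :
    x - EuclideanSpace.single j (1 : ℝ) ∈ Bt n i ε t ↔ x ∈ Bt n i ε t := by
  unfold Bt
  simp only [Set.mem_ofPred_eq, ssum_sub_single, hw_sub_single, Int.fract_sub_one]

theorem mem_Bt_add_single (n : ℕ) (i j : Fin n) (ε t : ℝ) (x : Eu n) :
    x + EuclideanSpace.single j (1 : ℝ) ∈ Bt n i ε t ↔ x ∈ Bt n i ε t := by
  unfold Bt
  simp only [Set.mem_ofPred_eq, ssum_add_single, hw_add_single, Int.fract_add_one]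

theorem mem_At_sub_single (n : ℕ) (i j : Fin n) (ε t : ℝ) (x : Eu n) :
    x - EuclideanSpace.single j (1 : ℝ) ∈ At n i ε t ↔ x ∈ At n i ε t := by
  unfold At
  simp only [Set.mem_ofPred_eq]
  rw [mem_Bt_sub_single, show -(x - EuclideanSpace.single j (1 : ℝ)) =
    -x + EuclideanSpace.single j (1 : ℝ) by abel, mem_Bt_add_single]

/-- Indicator function. -/
noncomputable def chi {n : ℕ} (S : Set (Eu n)) (x : Eu n) : ℝ := S.indicator (fun _ => (1 : ℝ)) x

theorem chi_mem {n : ℕ} {S : Set (Eu n)} {x : Eu n} (h : x ∈ S) : chi S x = 1 := by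
  unfold chi; rw [Set.indicator_of_mem h]

theorem chi_not_mem {n : ℕ} {S : Set (Eu n)} {x : Eu n} (h : x ∉ S) : chi S x = 0 := by
  unfold chi; rw [Set.indicator_of_notMem h]

theorem measurable_chi {n : ℕ} {S : Set (Eu n)} (hS : MeasurableSet S) : Measurable (chi S) :=
  measurable_const.indicator hS

theorem chi_eq (n : ℕ) (S : Set (Eu n)) (x : Eu n) : chi S x = 1 ∨ chi S x = 0 := by
  by_cases h : x ∈ S
  · left; exact chi_mem h
  · right; exact chi_not_mem h

theorem chi_congr {n : ℕ} {S T : Set (Eu n)} {x y : Eu n} (h : x ∈ S ↔ y ∈ T) :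
    chi S x = chi T y := by
  by_cases hx : x ∈ S
  · rw [chi_mem hx, chi_mem (h.1 hx)]
  · rw [chi_not_mem hx, chi_not_mem (fun hy => hx (h.2 hy))]

/-- The sign function of the new set. -/
noncomputable def fO (n : ℕ) (i : Fin n) (ε t : ℝ) (x : Eu n) : ℝ :=
  fB n x * (1 - 2 * chi (At n i ε t) x)

theorem measurable_fO (n : ℕ) (i : Fin n) (ε t : ℝ) : Measurable (fO n i ε t) := by
  unfold fO
  exact (measurable_fB n).mul (measurable_const.sub
    ((measurable_chi (measurableSet_At n i ε t)).const_mul 2))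

theorem abs_fB (n : ℕ) (x : Eu n) : |fB n x| = 1 := abs_wave _

theorem fB_neg (n : ℕ) {x : Eu n} (hx : Real.sin (π * ssum n x) ≠ 0) : fB n (-x) = -fB n x := by
  unfold fB
  rw [ssum_neg, wave_neg hx]

theorem fO_neg (n : ℕ) (i : Fin n) (ε t : ℝ) {x : Eu n} (hx : Real.sin (π * ssum n x) ≠ 0) :
    fO n i ε t (-x) = -fO n i ε t x := by
  unfold fO
  rw [fB_neg n hx, chi_congr (mem_At_neg n i ε t x)]
  ring

theorem fB_sub_single (n : ℕ) (j : Fin n) {x : Eu n} (hx : Real.sin (π * ssum n x) ≠ 0) :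
    fB n (x - EuclideanSpace.single j (1 : ℝ)) = -fB n x := by
  unfold fB
  rw [ssum_sub_single]
  have h1 : Real.sin (π * (ssum n x - 1)) ≠ 0 := by
    rw [show π * (ssum n x - 1) = π * ssum n x - π by ring, Real.sin_sub_pi]
    simpa using hx
  have := wave_add_one h1
  rw [sub_add_cancel] at this
  linarith

theorem fO_sub_single (n : ℕ) (i j : Fin n) (ε t : ℝ) {x : Eu n}
    (hx : Real.sin (π * ssum n x) ≠ 0) :
    fO n i ε t (x - EuclideanSpace.single j (1 : ℝ)) = -fO n i ε t x := by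
  unfold fO
  rw [fB_sub_single n j hx, chi_congr (mem_At_sub_single n i j ε t x)]
  ring

theorem fO_eq_one_or (n : ℕ) (i : Fin n) (ε t : ℝ) (x : Eu n) :
    fO n i ε t x = 1 ∨ fO n i ε t x = -1 := by
  unfold fO fB
  rcases wave_eq_one_or (ssum n x) with h | h <;> rw [h] <;>
    rcases chi_eq n (At n i ε t) x with h2 | h2 <;> rw [h2] <;> norm_num

theorem integral_odd_eq_zero (n : ℕ) (hn : 0 < n) (f : Eu n → ℝ) (hf : Measurable f)
    (hodd : ∀ x, Real.sin (π * ssum n x) ≠ 0 → f (-x) = -f x) : ∫ x, f x ∂(gam n) = 0 := by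
  have h1 := integral_gam_neg n f hf
  have h2 : ∫ x, f (-x) ∂(gam n) = -∫ x, f x ∂(gam n) := by
    rw [← integral_neg]
    refine integral_congr_ae ?_
    filter_upwards [ae_gam_sin_ne n hn] with x hx
    exact hodd x hx
  linarith

theorem wave_eq_of_fract {s : ℝ} (hs : 0 < Int.fract s) : wave s = (-1 : ℝ) ^ ⌊s⌋ := by
  have h := wave_add_int (x := Int.fract s) ⟨hs, Int.fract_lt_one s⟩ ⌊s⌋
  rwa [Int.fract_add_floor] at h

theorem integral_flip (n : ℕ) (hn : 0 < n) (i : Fin n) (ρ : ℝ) (v : ℝ≥0) (hv : v ≠ 0)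
    (ε t : ℝ) (hε : ε < 1 / 2) :
    ∫ x, (fB n x * chi (At n i ε t) x) * smooth v (ρ * ssum n x) ∂(gam n) =
      2 * ∫ x, (if t < hw n i x then slab v ρ ε (ssum n x) else 0) ∂(gam n) := by
  set g : Eu n → ℝ := fun x => (fB n x * chi (Bt n i ε t) x) *
    smooth v (ρ * ssum n x) with hg
  have hgm : Measurable g :=
    ((measurable_fB n).mul (measurable_chi (measurableSet_Bt n i ε t))).mul
      ((continuous_smooth v hv).measurable.comp ((measurable_ssum n).const_mul ρ))
  have hgb : ∀ x, |g x| ≤ 1 := by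
    intro x
    simp only [hg]
    rw [abs_mul, abs_mul, abs_fB, one_mul]
    have h1 := abs_smooth_le v (ρ * ssum n x)
    rcases chi_eq n (Bt n i ε t) x with h2 | h2 <;> rw [h2]
    · simpa using h1
    · simp
  have hgi : Integrable g (gam n) := integrable_of_bdd _ _ hgm 1 hgb
  have hgi' : Integrable (fun x => g (-x)) (gam n) :=
    integrable_of_bdd _ _ (hgm.comp measurable_neg) 1 (fun x => hgb _)
  have e1 : ∀ x, g x = if t < hw n i x then slab v ρ ε (ssum n x) else 0 := by
    intro x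
    simp only [hg, slab]
    by_cases h1 : 0 < Int.fract (ssum n x) ∧ Int.fract (ssum n x) < ε
    · by_cases h2 : t < hw n i x
      · rw [chi_mem (show x ∈ Bt n i ε t from ⟨h1, h2⟩), if_pos h2, if_pos h1, fB,
          wave_eq_of_fract h1.1]
        ring
      · rw [chi_not_mem (fun h : x ∈ Bt n i ε t => h2 h.2), if_neg h2]
        ring
    · rw [chi_not_mem (fun h : x ∈ Bt n i ε t => h1 h.1), if_neg h1]
      simp
  have e2 : ∫ x, (fB n x * chi (At n i ε t) x) * smooth v (ρ * ssum n x) ∂(gam n) =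
      ∫ x, g x + g (-x) ∂(gam n) := by
    refine integral_congr_ae ?_
    filter_upwards [ae_gam_sin_ne n hn] with x hx
    simp only [hg]
    rw [fB_neg n hx, ssum_neg, mul_neg, smooth_neg v hv]
    by_cases h1 : x ∈ Bt n i ε t
    · have h2 : -x ∉ Bt n i ε t := by
        intro h2
        have h3 := h1.1.2
        have h4 := h2.1.2
        rw [ssum_neg] at h4
        have h5 : Int.fract (ssum n x) ≠ 0 := h1.1.1.ne'
        rw [Int.fract_neg h5] at h4
        linarith
      rw [chi_mem (show x ∈ At n i ε t from Or.inl h1), chi_mem h1, chi_not_mem h2]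
      ring
    · by_cases h2 : -x ∈ Bt n i ε t
      · rw [chi_mem (show x ∈ At n i ε t from Or.inr h2), chi_not_mem h1, chi_mem h2]
        ring
      · rw [chi_not_mem (fun h : x ∈ At n i ε t => Or.elim h h1 h2), chi_not_mem h1,
          chi_not_mem h2]
        ring
  rw [e2, integral_add hgi hgi', integral_gam_neg n g hgm]
  simp_rw [e1]
  ring

/-- The main theorem, for the half space with all signs `+1`. -/
theorem main (n : ℕ) (hn : 3 ≤ n) (ρ : ℝ) (hρ1 : 1 / 2 < ρ) (hρ2 : ρ < 1) :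
    ∃ Ω : Set (Eu n), MeasurableSet Ω ∧
      (∀ j : Fin n, ∀ᵐ x ∂(volume : Measure (Eu n)),
        (x - EuclideanSpace.single j (1 : ℝ) ∈ Ω ↔ x ∉ Ω)) ∧
      (∀ᵐ x ∂(volume : Measure (Eu n)), (-x ∈ Ω ↔ x ∉ Ω)) ∧
      stab n ρ {x | 0 ≤ Real.sin (π * ssum n x)} < stab n ρ Ω := by
  have hn0 : 0 < n := by omega
  have hn' : (3 : ℝ) ≤ n := by exact_mod_cast hn
  have h0 : 0 ≤ ρ := by linarith
  have h1 : ρ ≤ 1 := hρ2.le
  have hvpos : 0 < (1 - ρ ^ 2) * (n : ℝ) := mul_pos (by nlinarith) (by linarith)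
  obtain ⟨v, hv⟩ : ∃ v : ℝ≥0, (v : ℝ) = (1 - ρ ^ 2) * n :=
    ⟨Real.toNNReal ((1 - ρ ^ 2) * n), Real.coe_toNNReal _ hvpos.le⟩
  have hvne : v ≠ 0 := by
    intro h; rw [h] at hv; simp only [NNReal.coe_zero] at hv; linarith
  set κ : ℝ := rexp (-(2 * π ^ 2 * (1 - 1 / n))) with hκ
  have hκ0 : 0 < κ := Real.exp_pos _
  have hκ1 : κ ≤ 1 := by
    rw [hκ]
    apply Real.exp_le_one_iff.2
    have : 1 / (n : ℝ) ≤ 1 := by rw [div_le_one (by linarith)]; linarith
    have h2 : 0 ≤ 2 * π ^ 2 * (1 - 1 / (n : ℝ)) := by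
      apply mul_nonneg (by positivity); linarith
    linarith
  have hw : ((n : ℝ≥0) : ℝ) = n := by simp
  obtain ⟨ε, hε0, hε1, hneg⟩ := exists_slab_neg n hn ρ hρ1 hρ2 v (n : ℝ≥0) hv hvne hw κ hκ0 hκ1
  set i : Fin n := ⟨0, hn0⟩ with hi
  have hslabm := measurable_slab v hvne ρ ε
  have hsi : Integrable (slab v ρ ε) (gaussianReal 0 (n : ℝ≥0)) :=
    integrable_of_bdd _ _ hslabm 1 (abs_slab_le v ρ ε)
  have hsin : Integrable (fun s => slab v ρ ε s * Real.sin (2 * π / n * s))
      (gaussianReal 0 (n : ℝ≥0)) := by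
    refine integrable_of_bdd _ _ (hslabm.mul (by fun_prop)) 1 (fun s => ?_)
    rw [abs_mul]
    calc |slab v ρ ε s| * |Real.sin (2 * π / n * s)| ≤ 1 * 1 :=
          mul_le_mul (abs_slab_le v ρ ε s) (Real.abs_sin_le_one _) (abs_nonneg _) zero_le_one
      _ = 1 := by norm_num
  have hfirst : ∫ x, Pool.Agent.MP_9b0515_pr.hw n i x * slab v ρ ε (ssum n x) ∂(gam n) < 0 := by
    have a1 := integral_sin_mul n hn0 i (slab v ρ ε) hslabm 1 (abs_slab_le v ρ ε) (n : ℝ≥0) hw
    have a2 := integral_sum_law n (slab v ρ ε) hslabm (n : ℝ≥0) hw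
    have b1 : Integrable (fun x : Eu n => slab v ρ ε (∑ j, x j)) (gam n) :=
      integrable_of_bdd _ _ (hslabm.comp (measurable_ssum n)) 1 (fun x => abs_slab_le v ρ ε _)
    have b2 : Integrable (fun x : Eu n => slab v ρ ε (∑ j, x j) * Real.sin (2 * π * x i))
        (gam n) := by
      refine integrable_of_bdd _ _ ((hslabm.comp (measurable_ssum n)).mul (by fun_prop)) 1
        (fun x => ?_)
      rw [abs_mul]
      calc |slab v ρ ε (∑ j, x j)| * |Real.sin (2 * π * x i)| ≤ 1 * 1 :=
            mul_le_mul (abs_slab_le v ρ ε _) (Real.abs_sin_le_one _) (abs_nonneg _) zero_le_one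
        _ = 1 := by norm_num
    have e : ∀ x : Eu n, Pool.Agent.MP_9b0515_pr.hw n i x * slab v ρ ε (ssum n x) =
        (1 / 2) * (slab v ρ ε (∑ j, x j) + slab v ρ ε (∑ j, x j) * Real.sin (2 * π * x i)) := by
      intro x
      simp only [Pool.Agent.MP_9b0515_pr.hw, ssum]
      ring
    simp_rw [e]
    rw [integral_const_mul, integral_add b1 b2, a1, a2, ← hκ]
    have e3 : ∀ s : ℝ, slab v ρ ε s * (1 + κ * Real.sin (2 * π / n * s)) =
        slab v ρ ε s + κ * (slab v ρ ε s * Real.sin (2 * π / n * s)) := by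
      intro s; ring
    simp_rw [e3] at hneg
    rw [integral_add hsi (hsin.const_mul κ), integral_const_mul] at hneg
    linarith
  obtain ⟨t, ht⟩ := exists_level n hn i ρ v hvne ε hfirst
  refine ⟨{x | fO n i ε t x = 1}, ?_, ?_, ?_, ?_⟩
  · exact measurableSet_eq_fun (measurable_fO n i ε t) measurable_const
  · intro j
    filter_upwards [ae_vol_sin_ne n hn0] with x hx
    change fO n i ε t (x - EuclideanSpace.single j (1 : ℝ)) = 1 ↔ ¬ (fO n i ε t x = 1)
    rw [fO_sub_single n i j ε t hx]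
    rcases fO_eq_one_or n i ε t x with h | h <;> rw [h] <;> norm_num
  · filter_upwards [ae_vol_sin_ne n hn0] with x hx
    change fO n i ε t (-x) = 1 ↔ ¬ (fO n i ε t x = 1)
    rw [fO_neg n i ε t hx]
    rcases fO_eq_one_or n i ε t x with h | h <;> rw [h] <;> norm_num
  · have hΩm : MeasurableSet {x | fO n i ε t x = 1} :=
      measurableSet_eq_fun (measurable_fO n i ε t) measurable_const
    have hBm : MeasurableSet {x : Eu n | 0 ≤ Real.sin (π * ssum n x)} :=
      measurableSet_le measurable_const (by have := measurable_ssum n; fun_prop)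
    rw [stab_eq n ρ h0 h1 _ hΩm (fO n i ε t) (measurable_fO n i ε t) (fun x hx => hx)
      (fun x hx => (fO_eq_one_or n i ε t x).resolve_left hx)
      (integral_odd_eq_zero n hn0 _ (measurable_fO n i ε t) (fun x hx => fO_neg n i ε t hx)),
      stab_eq n ρ h0 h1 _ hBm (fB n) (measurable_fB n)
      (fun x hx => if_pos (show 0 ≤ Real.sin (π * ssum n x) from hx))
      (fun x hx => if_neg (show ¬ 0 ≤ Real.sin (π * ssum n x) from hx))
      (integral_odd_eq_zero n hn0 _ (measurable_fB n) (fun x hx => fB_neg n hx))]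
    set u : Eu n → ℝ := fun x => -2 * (fB n x * chi (At n i ε t) x) with hu
    have hum : Measurable u :=
      ((measurable_fB n).mul (measurable_chi (measurableSet_At n i ε t))).const_mul (-2)
    have hub : ∀ x, |u x| ≤ 2 := by
      intro x
      simp only [hu]
      rw [abs_mul, abs_mul, abs_fB]
      rcases chi_eq n (At n i ε t) x with h2 | h2 <;> rw [h2] <;> norm_num
    have hfO : fO n i ε t = fun x => fB n x + u x := by
      ext x
      simp only [fO, hu]
      ring
    have hexp := J_expand n ρ h0 h1 (fB n) u (measurable_fB n) hum 2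
      (fun x => by rw [abs_fB]; norm_num) hub
    have hpos := J_nonneg n ρ h0 h1 u hum 2 hub
    have hlin : J n ρ u (fB n) = -4 *
        ∫ x, (if t < Pool.Agent.MP_9b0515_pr.hw n i x then slab v ρ ε (ssum n x) else 0) ∂(gam n) := by
      rw [J_smooth n ρ h0 h1 u hum 2 hub v hv]
      have e : ∀ x, u x * smooth v (ρ * ssum n x) =
          (-2) * ((fB n x * chi (At n i ε t) x) * smooth v (ρ * ssum n x)) := by
        intro x; simp only [hu]; ring
      simp_rw [e]
      rw [integral_const_mul, integral_flip n hn0 i ρ v hvne ε t hε1]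
      ring
    rw [hfO, hexp]
    nlinarith

end Pool.Agent.MP_9b0515_pr
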