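import Pool.Agent.Lib.MP_9b0515_pr.QNeg

set_option autoImplicit false

open Real MeasureTheory ProbabilityTheory
open scoped NNReal

namespace Pool.Agent.MP_9b0515_pr

theorem smooth_neg (v : ℝ≥0) (hv : v ≠ 0) (s : ℝ) : smooth v (-s) = -smooth v s := by
  rw [smooth_eq_tsum v hv, smooth_eq_tsum v hv, ← tsum_neg]
  refine tsum_congr (fun m => ?_)
  rw [mul_neg, Real.sin_neg]
  ring

theorem continuous_smooth (v : ℝ≥0) (hv : v ≠ 0) : Continuous (smooth v) := by
  have hv0 : (0 : ℝ) < v := by positivity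
  have h : smooth v = fun s => ∑' m : ℤ, coef v m * Real.sin (π * (2 * m + 1) * s) := by
    ext s; exact smooth_eq_tsum v hv s
  rw [h]
  refine continuous_tsum (fun m => by fun_prop) (summable_abs_coef v hv0) (fun m s => ?_)
  rw [norm_mul, Real.norm_eq_abs, Real.norm_eq_abs]
  exact mul_le_of_le_one_right (abs_nonneg _) (Real.abs_sin_le_one _)

theorem abs_smooth_le (v : ℝ≥0) (s : ℝ) : |smooth v s| ≤ 1 := by
  unfold smooth
  have h := norm_integral_le_of_norm_le_const (μ := gaussianReal 0 v) (f := fun u => wave (s + u))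
    (C := 1) (Filter.Eventually.of_forall fun u => by rw [Real.norm_eq_abs, abs_wave])
  simpa using h

/-- one-sided slab weight -/
noncomputable def slab (v : ℝ≥0) (ρ ε s : ℝ) : ℝ :=
  if 0 < Int.fract s ∧ Int.fract s < ε then (-1 : ℝ) ^ ⌊s⌋ * smooth v (ρ * s) else 0

theorem measurable_slab (v : ℝ≥0) (hv : v ≠ 0) (ρ ε : ℝ) : Measurable (slab v ρ ε) := by
  unfold slab
  refine Measurable.ite ?_ ?_ measurable_const
  · exact (measurableSet_lt measurable_const measurable_fract).inter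
      (measurableSet_lt measurable_fract measurable_const)
  · refine Measurable.mul ?_ ((continuous_smooth v hv).measurable.comp (by fun_prop))
    exact (measurable_from_top (f := fun k : ℤ => (-1 : ℝ) ^ k)).comp Int.measurable_floor

theorem abs_slab_le (v : ℝ≥0) (ρ ε s : ℝ) : |slab v ρ ε s| ≤ 1 := by
  unfold slab
  split_ifs
  · rw [abs_mul, abs_zpow, abs_neg, abs_one, one_zpow, one_mul]
    exact abs_smooth_le v _
  · simp

theorem slab_add_int (v : ℝ≥0) (ρ ε : ℝ) {x : ℝ} (hx : x ∈ Set.Ioo (0 : ℝ) 1) (k : ℤ) :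
    slab v ρ ε (x + k) = if x < ε then (-1 : ℝ) ^ k * smooth v (ρ * (x + k)) else 0 := by
  have hfl : ⌊x⌋ = 0 := Int.floor_eq_zero_iff.2 ⟨hx.1.le, hx.2⟩
  have hfr : Int.fract x = x := by
    rw [Int.fract, hfl]; simp
  unfold slab
  rw [Int.fract_add_intCast, hfr, Int.floor_add_intCast, hfl]
  simp [hx.1]

/-- the folded pieces -/
noncomputable def piece (v w : ℝ≥0) (n : ℕ) (ρ κ : ℝ) (k : ℤ) (x : ℝ) : ℝ :=
  (-1 : ℝ) ^ k * smooth v (ρ * (x + k)) * gaussianPDFReal 0 w (x + k) *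
    (1 + κ * Real.sin (2 * π / n * (x + k)))

theorem continuous_piece (v w : ℝ≥0) (hv : v ≠ 0) (n : ℕ) (ρ κ : ℝ) (k : ℤ) :
    Continuous (piece v w n ρ κ k) := by
  unfold piece gaussianPDFReal
  have := continuous_smooth v hv
  fun_prop

theorem piece_bound (v w : ℝ≥0) (hw : w ≠ 0) (n : ℕ) (ρ κ : ℝ) (hκ0 : 0 ≤ κ) (hκ1 : κ ≤ 1)
    (k : ℤ) (x : ℝ) (hx : x ∈ Set.Icc (0 : ℝ) 1) :
    ‖piece v w n ρ κ k x‖ ≤ 2 * ((√(2 * π * w))⁻¹ * rexp (1 / (2 * w))) *
      rexp (-(1 / (2 * w) / 2 * |(k : ℝ)|)) := by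
  have hw0 : (0 : ℝ) < w := by positivity
  unfold piece
  rw [norm_mul, norm_mul, norm_mul, norm_zpow, norm_neg, norm_one, one_zpow, one_mul,
    Real.norm_eq_abs, Real.norm_eq_abs, Real.norm_eq_abs]
  have h1 := abs_smooth_le v (ρ * (x + k))
  have h2 : |1 + κ * Real.sin (2 * π / n * (x + k))| ≤ 2 := by
    have hs := Real.abs_sin_le_one (2 * π / n * (x + k))
    have := abs_le.1 hs
    rw [abs_le]
    constructor <;> nlinarith
  have h3 : |gaussianPDFReal 0 w (x + k)| ≤ (√(2 * π * w))⁻¹ * (rexp (1 / (2 * w)) *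
      rexp (-(1 / (2 * w) / 2 * |(k : ℝ)|))) := by
    rw [abs_of_nonneg (gaussianPDFReal_nonneg _ _ _), gaussianPDFReal]
    refine mul_le_mul_of_nonneg_left ?_ (inv_nonneg.2 (Real.sqrt_nonneg _))
    have h4 := exp_gauss_le (1 / (2 * w)) (by positivity) x k
    have h5 : rexp (-(x + k - 0) ^ 2 / (2 * w)) = rexp (-(1 / (2 * w) * (x + k) ^ 2)) := by
      congr 1; field_simp; ring
    rw [h5]
    refine h4.trans (mul_le_mul_of_nonneg_right ?_ (Real.exp_pos _).le)
    apply Real.exp_le_exp.2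
    have : x ^ 2 ≤ 1 := by nlinarith [hx.1, hx.2]
    have h6 : 0 ≤ 1 / (2 * (w : ℝ)) := by positivity
    nlinarith
  calc |smooth v (ρ * (x + k))| * |gaussianPDFReal 0 w (x + k)| *
        |1 + κ * Real.sin (2 * π / n * (x + k))|
      ≤ 1 * ((√(2 * π * w))⁻¹ * (rexp (1 / (2 * w)) *
      rexp (-(1 / (2 * w) / 2 * |(k : ℝ)|)))) * 2 := by gcongr
    _ = _ := by ring

theorem summable_piece_bound (w : ℝ≥0) (hw : w ≠ 0) :
    Summable (fun k : ℤ => 2 * ((√(2 * π * w))⁻¹ * rexp (1 / (2 * w))) *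
      rexp (-(1 / (2 * w) / 2 * |(k : ℝ)|))) := by
  have hw0 : (0 : ℝ) < w := by positivity
  exact (summable_exp_abs_int _ (by positivity)).mul_left _

/-- Folding the slab integral. -/
theorem slab_integral (v w : ℝ≥0) (hv : v ≠ 0) (hw : w ≠ 0) (n : ℕ) (ρ κ : ℝ) (hκ0 : 0 ≤ κ)
    (hκ1 : κ ≤ 1) (ε : ℝ) (hε0 : 0 < ε) (hε1 : ε ≤ 1) :
    ∫ s, slab v ρ ε s * (1 + κ * Real.sin (2 * π / n * s)) ∂(gaussianReal 0 w) =
      ∫ x in (0 : ℝ)..ε, ∑' k : ℤ, piece v w n ρ κ k x := by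
  rw [integral_gaussianReal_eq_integral_smul hw]
  set g : ℝ → ℝ := fun s => gaussianPDFReal 0 w s •
    (slab v ρ ε s * (1 + κ * Real.sin (2 * π / n * s))) with hg
  have hint : Integrable g := by
    simp only [hg, smul_eq_mul]
    refine Integrable.mul_bdd (c := 2) (integrable_gaussianPDFReal 0 w) ?_ ?_
    · exact ((measurable_slab v hv ρ ε).mul (by fun_prop)).aestronglyMeasurable
    · refine Filter.Eventually.of_forall (fun s => ?_)
      rw [norm_mul, Real.norm_eq_abs, Real.norm_eq_abs]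
      have h2 : |1 + κ * Real.sin (2 * π / n * s)| ≤ 2 := by
        have hs := Real.abs_sin_le_one (2 * π / n * s)
        have := abs_le.1 hs
        rw [abs_le]
        constructor <;> nlinarith
      calc |slab v ρ ε s| * |1 + κ * Real.sin (2 * π / n * s)| ≤ 1 * 2 := by
            gcongr
            exact abs_slab_le v ρ ε s
        _ = 2 := by norm_num
  have hsum := hint.hasSum_intervalIntegral_comp_add_int
  have hpiece : ∀ k : ℤ, ∫ x in (0 : ℝ)..1, g (x + k) = ∫ x in (0 : ℝ)..ε, piece v w n ρ κ k x := by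
    intro k
    have hintk : Integrable (fun x => g (x + k)) := hint.comp_add_right (k : ℝ)
    rw [← intervalIntegral.integral_add_adjacent_intervals (b := ε)
      hintk.intervalIntegrable hintk.intervalIntegrable]
    have hz : ∫ x in ε..1, g (x + k) = 0 := by
      rw [intervalIntegral.integral_congr_ae (g := fun _ => (0 : ℝ))]
      · simp
      · have h1 : ∀ᵐ x : ℝ, x ≠ 1 := by
          simp [ae_iff, measure_singleton]
        filter_upwards [h1] with x hx1 hx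
        rw [Set.uIoc_of_le hε1] at hx
        have hx0 : x ∈ Set.Ioo (0 : ℝ) 1 := ⟨hε0.trans hx.1, lt_of_le_of_ne hx.2 hx1⟩
        simp only [hg]
        rw [slab_add_int v ρ ε hx0, if_neg (by linarith [hx.1])]
        simp
    rw [hz, add_zero]
    refine intervalIntegral.integral_congr_ae ?_
    have h1 : ∀ᵐ x : ℝ, x ≠ ε := by
      simp [ae_iff, measure_singleton]
    filter_upwards [h1] with x hx1 hx
    rw [Set.uIoc_of_le hε0.le] at hx
    have hxε : x < ε := lt_of_le_of_ne hx.2 hx1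
    have hx0 : x ∈ Set.Ioo (0 : ℝ) 1 := ⟨hx.1, lt_of_lt_of_le hxε hε1⟩
    simp only [hg]
    rw [slab_add_int v ρ ε hx0, if_pos hxε]
    unfold piece
    rw [smul_eq_mul]
    ring
  simp_rw [hpiece] at hsum
  let f : ℤ → C(ℝ, ℝ) := fun k => ⟨piece v w n ρ κ k, continuous_piece v w hv n ρ κ k⟩
  have hnorm : Summable (fun k : ℤ =>
      ‖(f k).restrict (⟨Set.uIcc (0 : ℝ) ε, isCompact_uIcc⟩ : TopologicalSpace.Compacts ℝ)‖) := by
    refine Summable.of_nonneg_of_le (fun _ => norm_nonneg _) (fun k => ?_)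
      (summable_piece_bound w hw)
    rw [ContinuousMap.norm_le _ (by positivity)]
    rintro ⟨x, hx⟩
    have hx' : x ∈ Set.uIcc (0 : ℝ) ε := hx
    rw [Set.uIcc_of_le hε0.le] at hx'
    exact piece_bound v w hw n ρ κ hκ0 hκ1 k x ⟨hx'.1, hx'.2.trans hε1⟩
  have hsum2 := intervalIntegral.hasSum_intervalIntegral_of_summable_norm
    (a := (0 : ℝ)) (b := ε) hnorm
  exact hsum.unique hsum2

theorem folded_zero (n : ℕ) (hn : 3 ≤ n) (ρ : ℝ) (hρ1 : 1 / 2 < ρ) (hρ2 : ρ < 1) (v w : ℝ≥0)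
    (hv : (v : ℝ) = (1 - ρ ^ 2) * n) (hvne : v ≠ 0) (hw : (w : ℝ) = n) (κ : ℝ) (hκ0 : 0 < κ)
    (hκ1 : κ ≤ 1) :
    ∑' k : ℤ, piece v w n ρ κ k 0 < 0 := by
  have hn' : (3 : ℝ) ≤ n := by exact_mod_cast hn
  have hn0 : (0 : ℝ) < n := by linarith
  have hwne : w ≠ 0 := by
    intro h; rw [h] at hw; simp at hw; linarith
  set φ : ℤ → ℝ := fun k => (-1 : ℝ) ^ k * smooth v (ρ * k) * rexp (-(k : ℝ) ^ 2 / (2 * n)) with hφ
  have hb0 := summable_gauss_int (1 / (2 * n)) (by positivity) 0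
  have hφs : Summable φ := by
    refine Summable.of_norm_bounded hb0 (fun k => ?_)
    simp only [hφ]
    rw [norm_mul, norm_mul, norm_zpow, norm_neg, norm_one, one_zpow, one_mul, Real.norm_eq_abs,
      Real.norm_eq_abs, abs_of_pos (Real.exp_pos _)]
    have e : rexp (-(k : ℝ) ^ 2 / (2 * n)) = rexp (-(1 / (2 * n) * (0 + k) ^ 2)) := by
      congr 1; ring
    rw [e]
    exact mul_le_of_le_one_left (Real.exp_pos _).le (abs_smooth_le v _)
  have hφss : Summable (fun k : ℤ => φ k * Real.sin (2 * π / n * k)) := by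
    refine Summable.of_norm_bounded hφs.norm (fun k => ?_)
    rw [norm_mul]
    exact mul_le_of_le_one_right (norm_nonneg _) (by
      rw [Real.norm_eq_abs]; exact Real.abs_sin_le_one _)
  have h0 : ∑' k : ℤ, φ k = 0 := by
    have h1 : ∑' k : ℤ, φ k = ∑' k : ℤ, φ (-k) := ((Equiv.neg ℤ).tsum_eq φ).symm
    have h2 : ∀ k : ℤ, φ (-k) = -φ k := by
      intro k
      simp only [hφ]
      rw [zpow_neg, ← inv_zpow, inv_neg, inv_one]
      push_cast
      rw [mul_neg, smooth_neg v hvne, neg_sq]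
      ring
    simp_rw [h2] at h1
    rw [tsum_neg] at h1
    linarith
  have hterm : ∀ k : ℤ, piece v w n ρ κ k 0 =
      (√(2 * π * n))⁻¹ * (φ k + κ * (φ k * Real.sin (2 * π / n * k))) := by
    intro k
    unfold piece
    simp only [hφ, gaussianPDFReal, zero_add, sub_zero, hw]
    ring
  simp_rw [hterm]
  rw [tsum_mul_left, hφs.tsum_add (hφss.mul_left κ), h0, zero_add, tsum_mul_left]
  have hQ := Q_neg n hn ρ hρ1 hρ2 v hv
  have hc : 0 < (√(2 * π * n))⁻¹ := by positivity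
  have h3 : κ * ∑' k : ℤ, φ k * Real.sin (2 * π / n * k) < 0 := mul_neg_of_pos_of_neg hκ0 hQ
  exact mul_neg_of_pos_of_neg hc h3

/-- For a thin enough slab the first variation integral is negative. -/
theorem exists_slab_neg (n : ℕ) (hn : 3 ≤ n) (ρ : ℝ) (hρ1 : 1 / 2 < ρ) (hρ2 : ρ < 1) (v w : ℝ≥0)
    (hv : (v : ℝ) = (1 - ρ ^ 2) * n) (hvne : v ≠ 0) (hw : (w : ℝ) = n) (κ : ℝ) (hκ0 : 0 < κ)
    (hκ1 : κ ≤ 1) :
    ∃ ε : ℝ, 0 < ε ∧ ε < 1 / 2 ∧
      ∫ s, slab v ρ ε s * (1 + κ * Real.sin (2 * π / n * s)) ∂(gaussianReal 0 w) < 0 := by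
  have hn' : (3 : ℝ) ≤ n := by exact_mod_cast hn
  have hwne : w ≠ 0 := by
    intro h; rw [h] at hw; simp at hw; linarith
  set R : ℝ → ℝ := fun x => ∑' k : ℤ, piece v w n ρ κ k x with hR
  have hcont : ContinuousOn R (Set.Icc 0 1) :=
    continuousOn_tsum (fun k => (continuous_piece v w hvne n ρ κ k).continuousOn)
      (summable_piece_bound w hwne)
      (fun k x hx => piece_bound v w hwne n ρ κ hκ0.le hκ1 k x hx)
  have hR0 : R 0 < 0 := folded_zero n hn ρ hρ1 hρ2 v w hv hvne hw κ hκ0 hκ1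
  have hc0 : ContinuousWithinAt R (Set.Icc 0 1) 0 := hcont 0 (by simp)
  have hev : ∀ᶠ x in nhdsWithin 0 (Set.Icc (0 : ℝ) 1), R x < 0 := hc0.eventually_lt_const hR0
  rw [eventually_nhdsWithin_iff, Metric.eventually_nhds_iff] at hev
  obtain ⟨η, hη0, hη⟩ := hev
  refine ⟨min (η / 2) (1 / 4), by positivity, ?_, ?_⟩
  · exact lt_of_le_of_lt (min_le_right _ _) (by norm_num)
  set ε := min (η / 2) (1 / 4) with hε
  have hε0 : 0 < ε := by positivity
  have hε1 : ε ≤ 1 := (min_le_right _ _).trans (by norm_num)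
  have hεη : ε ≤ η / 2 := min_le_left _ _
  rw [slab_integral v w hvne hwne n ρ κ hκ0.le hκ1 ε hε0 hε1]
  have hneg : ∀ x ∈ Set.Ioo 0 ε, 0 < -R x := by
    intro x hx
    have : R x < 0 := by
      apply hη
      · rw [Real.dist_eq, sub_zero, abs_of_pos hx.1]; linarith [hx.2]
      · exact ⟨hx.1.le, hx.2.le.trans hε1⟩
    linarith
  have hii : IntervalIntegrable (fun x => -R x) volume 0 ε := by
    apply ContinuousOn.intervalIntegrable
    rw [Set.uIcc_of_le hε0.le]
    exact (hcont.mono (Set.Icc_subset_Icc_right hε1)).neg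
  have hpos := intervalIntegral.intervalIntegral_pos_of_pos_on hii hneg hε0
  rw [intervalIntegral.integral_neg] at hpos
  linarith

end Pool.Agent.MP_9b0515_pr
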