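import Pool.Agent.Lib.MP_9b0515_pr.Wave

set_option autoImplicit false

open Real MeasureTheory ProbabilityTheory
open scoped NNReal RealInnerProductSpace

namespace Pool.Agent.MP_9b0515_pr

/-- Euclidean `n`-space. -/
abbrev Eu (n : ℕ) := EuclideanSpace ℝ (Fin n)

/-- The standard Gaussian measure on `Eu n`. -/
noncomputable abbrev gam (n : ℕ) : Measure (Eu n) := stdGaussian (Eu n)

/-- The all-ones vector. -/
noncomputable def one (n : ℕ) : Eu n := WithLp.toLp 2 (fun _ => 1)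

theorem inner_one (n : ℕ) (x : Eu n) : ⟪one n, x⟫ = ∑ i, x i := by
  simp [PiLp.inner_apply, one]

theorem norm_one_sq (n : ℕ) : ‖one n‖ ^ 2 = n := by
  rw [← real_inner_self_eq_norm_sq, inner_one]
  simp [one]

theorem map_inner (n : ℕ) (a : Eu n) (v : ℝ≥0) (hv : (v : ℝ) = ‖a‖ ^ 2) :
    (gam n).map (fun x => ⟪a, x⟫) = gaussianReal 0 v := by
  have h := IsGaussian.map_eq_gaussianReal (μ := gam n) (innerSL ℝ a)
  have h1 : ((innerSL ℝ a : StrongDual ℝ (Eu n)) : Eu n → ℝ) = fun x => ⟪a, x⟫ := by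
    ext x; simp [innerSL_apply_apply]
  rw [integral_strongDual_stdGaussian, variance_dual_stdGaussian, innerSL_apply_norm, h1, ← hv,
    Real.toNNReal_coe] at h
  exact h

theorem indep_inner (n : ℕ) (a b : Eu n) (hab : ⟪a, b⟫ = 0) :
    IndepFun (fun x : Eu n => ⟪a, x⟫) (fun x : Eu n => ⟪b, x⟫) (gam n) := by
  apply HasGaussianLaw.indepFun_of_covariance_eq_zero
  · have h := (IsGaussian.hasGaussianLaw_id (μ := gam n)).map_fun
      ((innerSL ℝ a : StrongDual ℝ (Eu n)).prod (innerSL ℝ b : StrongDual ℝ (Eu n)))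
    exact h
  · have h := covarianceBilin_apply_eq_cov (μ := gam n) IsGaussian.memLp_two_id a b
    rw [← h, covarianceBilin_stdGaussian, innerSL_apply_apply]
    exact hab

theorem integral_cos_gaussian (v : ℝ≥0) (t : ℝ) :
    ∫ x, Real.cos (t * x) ∂(gaussianReal 0 v) = rexp (-(v * t ^ 2 / 2)) := by
  have h := charFun_gaussianReal (μ := 0) (v := v) t
  rw [charFun_apply_real] at h
  have h2 := congrArg Complex.re h
  have h3 : (∫ x : ℝ, Complex.exp (t * x * Complex.I) ∂(gaussianReal 0 v)).re =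
      ∫ x : ℝ, (Complex.exp (t * x * Complex.I)).re ∂(gaussianReal 0 v) := by
    have hi : Integrable (fun x : ℝ => Complex.exp (t * x * Complex.I)) (gaussianReal 0 v) := by
      refine Integrable.of_bound (C := 1) (by fun_prop) (Filter.Eventually.of_forall fun x => ?_)
      rw [show (t : ℂ) * x * Complex.I = ((t * x : ℝ) : ℂ) * Complex.I by push_cast; ring,
        Complex.norm_exp_ofReal_mul_I]
    exact (integral_re hi).symm
  rw [h3] at h2
  have h4 : ∀ x : ℝ, (Complex.exp (t * x * Complex.I)).re = Real.cos (t * x) := by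
    intro x
    rw [show (t : ℂ) * x * Complex.I = ((t * x : ℝ) : ℂ) * Complex.I by push_cast; ring,
      Complex.exp_ofReal_mul_I_re]
  simp_rw [h4] at h2
  rw [h2]
  have h5 : (t : ℂ) * ((0 : ℝ) : ℂ) * Complex.I - (v : ℂ) * (t : ℂ) ^ 2 / 2 =
      ((-(v * t ^ 2 / 2) : ℝ) : ℂ) := by
    push_cast; ring
  rw [h5, Complex.exp_ofReal_re]

theorem integral_sin_gaussian (v : ℝ≥0) (t : ℝ) :
    ∫ x, Real.sin (t * x) ∂(gaussianReal 0 v) = 0 := by
  have h : (gaussianReal 0 v).map (fun x => -x) = gaussianReal 0 v := by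
    rw [gaussianReal_map_neg]; simp
  have h1 : ∫ x, Real.sin (t * x) ∂(gaussianReal 0 v) =
      ∫ x, Real.sin (t * (-x)) ∂(gaussianReal 0 v) := by
    conv_lhs => rw [← h]
    rw [integral_map (by fun_prop) (by fun_prop)]
  have h2 : ∀ x : ℝ, Real.sin (t * (-x)) = -Real.sin (t * x) := by
    intro x; rw [mul_neg, Real.sin_neg]
  simp_rw [h2] at h1
  rw [integral_neg] at h1
  linarith

/-- The first coordinate minus the mean coordinate. -/
noncomputable def dev (n : ℕ) (i : Fin n) : Eu n :=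
  EuclideanSpace.single i (1 : ℝ) - (1 / (n : ℝ)) • one n

theorem inner_dev_one (n : ℕ) (hn : 0 < n) (i : Fin n) : ⟪dev n i, one n⟫ = 0 := by
  have hn' : (n : ℝ) ≠ 0 := by positivity
  rw [real_inner_comm]
  unfold dev
  rw [inner_sub_right, inner_smul_right, real_inner_self_eq_norm_sq, norm_one_sq, inner_one]
  simp [hn']

theorem norm_dev_sq (n : ℕ) (hn : 0 < n) (i : Fin n) : ‖dev n i‖ ^ 2 = 1 - 1 / (n : ℝ) := by
  have hn' : (n : ℝ) ≠ 0 := by positivity
  have h0 : ⟪EuclideanSpace.single i (1 : ℝ), one n⟫ = 1 := by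
    rw [real_inner_comm, inner_one]; simp
  rw [← real_inner_self_eq_norm_sq]
  have h1 : ⟪dev n i, dev n i⟫ = ⟪dev n i, EuclideanSpace.single i (1 : ℝ)⟫ := by
    conv_lhs => rw [dev, ← dev]
    rw [show dev n i = EuclideanSpace.single i (1 : ℝ) - (1 / (n : ℝ)) • one n from rfl,
      inner_sub_right, inner_smul_right, ← show dev n i = EuclideanSpace.single i (1 : ℝ) -
        (1 / (n : ℝ)) • one n from rfl, inner_dev_one n hn i]
    ring
  have h2 : ⟪one n, EuclideanSpace.single i (1 : ℝ)⟫ = 1 := by rw [real_inner_comm, h0]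
  rw [h1, dev, inner_sub_left, real_inner_smul_left, h2]
  simp

theorem inner_dev (n : ℕ) (i : Fin n) (x : Eu n) :
    ⟪dev n i, x⟫ = x i - (1 / (n : ℝ)) * ∑ j, x j := by
  rw [dev, inner_sub_left, real_inner_smul_left, inner_one]
  simp [EuclideanSpace.inner_single_left]

/-- Conditional expectation of `sin (2 π x_i)` given the sum of the coordinates. -/
theorem integral_sin_mul (n : ℕ) (hn : 0 < n) (i : Fin n) (ψ : ℝ → ℝ) (hψ : Measurable ψ)
    (C : ℝ) (hC : ∀ s, |ψ s| ≤ C) (w : ℝ≥0) (hw : (w : ℝ) = n) :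
    ∫ x : Eu n, ψ (∑ j, x j) * Real.sin (2 * π * x i) ∂(gam n) =
      rexp (-(2 * π ^ 2 * (1 - 1 / n))) *
        ∫ s, ψ s * Real.sin (2 * π / n * s) ∂(gaussianReal 0 w) := by
  have hind := indep_inner n (dev n i) (one n) (inner_dev_one n hn i)
  obtain ⟨u, hu⟩ : ∃ u : ℝ≥0, (u : ℝ) = 1 - 1 / (n : ℝ) :=
    ⟨Real.toNNReal (1 - 1 / (n : ℝ)), Real.coe_toNNReal _ (by
      rw [← norm_dev_sq n hn i]; positivity)⟩
  have hlawV := map_inner n (dev n i) u (by rw [hu]; exact (norm_dev_sq n hn i).symm)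
  have hlawS := map_inner n (one n) w (by rw [norm_one_sq, hw])
  have hmV : Measurable (fun x : Eu n => ⟪dev n i, x⟫) := by fun_prop
  have hmS : Measurable (fun x : Eu n => ⟪one n, x⟫) := by fun_prop
  have e1 : ∀ x : Eu n, ψ (∑ j, x j) * Real.sin (2 * π * x i) =
      Real.sin (2 * π * ⟪dev n i, x⟫) * (ψ ⟪one n, x⟫ * Real.cos (2 * π / n * ⟪one n, x⟫)) +
      Real.cos (2 * π * ⟪dev n i, x⟫) * (ψ ⟪one n, x⟫ * Real.sin (2 * π / n * ⟪one n, x⟫)) := by
    intro x
    have hx : 2 * π * x i = 2 * π * ⟪dev n i, x⟫ + 2 * π / n * ⟪one n, x⟫ := by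
      rw [inner_dev, inner_one]
      ring
    rw [hx, Real.sin_add, inner_one]
    ring
  simp_rw [e1]
  have hi1 : Integrable (fun x : Eu n => Real.sin (2 * π * ⟪dev n i, x⟫) *
      (ψ ⟪one n, x⟫ * Real.cos (2 * π / n * ⟪one n, x⟫))) (gam n) := by
    refine Integrable.of_bound (C := C) (by fun_prop) (Filter.Eventually.of_forall fun x => ?_)
    rw [norm_mul, norm_mul, Real.norm_eq_abs, Real.norm_eq_abs, Real.norm_eq_abs]
    calc |Real.sin (2 * π * ⟪dev n i, x⟫)| * (|ψ ⟪one n, x⟫| * |Real.cos (2 * π / n * ⟪one n, x⟫)|)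
        ≤ 1 * (C * 1) := by
          have := hC ⟪one n, x⟫
          have h0 : 0 ≤ C := (abs_nonneg _).trans this
          gcongr
          · exact Real.abs_sin_le_one _
          · exact Real.abs_cos_le_one _
      _ = C := by ring
  have hi2 : Integrable (fun x : Eu n => Real.cos (2 * π * ⟪dev n i, x⟫) *
      (ψ ⟪one n, x⟫ * Real.sin (2 * π / n * ⟪one n, x⟫))) (gam n) := by
    refine Integrable.of_bound (C := C) (by fun_prop) (Filter.Eventually.of_forall fun x => ?_)
    rw [norm_mul, norm_mul, Real.norm_eq_abs, Real.norm_eq_abs, Real.norm_eq_abs]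
    calc |Real.cos (2 * π * ⟪dev n i, x⟫)| * (|ψ ⟪one n, x⟫| * |Real.sin (2 * π / n * ⟪one n, x⟫)|)
        ≤ 1 * (C * 1) := by
          have := hC ⟪one n, x⟫
          have h0 : 0 ≤ C := (abs_nonneg _).trans this
          gcongr
          · exact Real.abs_cos_le_one _
          · exact Real.abs_sin_le_one _
      _ = C := by ring
  rw [integral_add hi1 hi2]
  have hc1 := (hind.comp (φ := fun t => Real.sin (2 * π * t))
    (ψ := fun s => ψ s * Real.cos (2 * π / n * s)) (by fun_prop) (by fun_prop))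
  have hc2 := (hind.comp (φ := fun t => Real.cos (2 * π * t))
    (ψ := fun s => ψ s * Real.sin (2 * π / n * s)) (by fun_prop) (by fun_prop))
  have f1 := hc1.integral_fun_mul_eq_mul_integral (by fun_prop) (by fun_prop)
  have f2 := hc2.integral_fun_mul_eq_mul_integral (by fun_prop) (by fun_prop)
  simp only [Function.comp] at f1 f2
  rw [f1, f2]
  have g1 : ∫ x : Eu n, Real.sin (2 * π * ⟪dev n i, x⟫) ∂(gam n) = 0 := by
    rw [← integral_map (φ := fun x : Eu n => ⟪dev n i, x⟫)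
      (f := fun t => Real.sin (2 * π * t)) (by fun_prop) (by fun_prop), hlawV,
      integral_sin_gaussian]
  have g2 : ∫ x : Eu n, Real.cos (2 * π * ⟪dev n i, x⟫) ∂(gam n) =
      rexp (-(2 * π ^ 2 * (1 - 1 / n))) := by
    rw [← integral_map (φ := fun x : Eu n => ⟪dev n i, x⟫)
      (f := fun t => Real.cos (2 * π * t)) (by fun_prop) (by fun_prop), hlawV,
      integral_cos_gaussian]
    congr 1
    rw [hu]
    ring
  have g3 : ∫ x : Eu n, ψ ⟪one n, x⟫ * Real.sin (2 * π / n * ⟪one n, x⟫) ∂(gam n) =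
      ∫ s, ψ s * Real.sin (2 * π / n * s) ∂(gaussianReal 0 w) := by
    rw [← integral_map (φ := fun x : Eu n => ⟪one n, x⟫)
      (f := fun s => ψ s * Real.sin (2 * π / n * s)) (by fun_prop) (by fun_prop), hlawS]
  rw [g1, g2, g3]
  ring

theorem integral_sum_law (n : ℕ) (ψ : ℝ → ℝ) (hψ : Measurable ψ) (w : ℝ≥0) (hw : (w : ℝ) = n) :
    ∫ x : Eu n, ψ (∑ j, x j) ∂(gam n) = ∫ s, ψ s ∂(gaussianReal 0 w) := by
  have hlawS := map_inner n (one n) w (by rw [norm_one_sq, hw])
  rw [← hlawS, integral_map (by fun_prop) (by fun_prop)]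
  simp_rw [inner_one]

end Pool.Agent.MP_9b0515_pr
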