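import Pool.Agent.Lib.MP_9b0515_pr.Theta

set_option autoImplicit false

open Real

namespace Pool.Agent.MP_9b0515_pr

theorem sinh_succ_mul_le (N : ℕ) (y : ℝ) (hy : 0 ≤ y) :
    Real.sinh ((N + 1) * y) ≤ (N + 1) * rexp (N * y) * Real.sinh y := by
  have hs : 0 ≤ Real.sinh y := Real.sinh_nonneg_iff.2 hy
  induction N with
  | zero => simp
  | succ N ih =>
    push_cast
    have h1 : Real.sinh ((N + 1 + 1) * y) =
        Real.sinh ((N + 1) * y) * Real.cosh y + Real.cosh ((N + 1) * y) * Real.sinh y := by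
      rw [← Real.sinh_add]; congr 1; ring
    rw [h1]
    have h2 : Real.cosh y ≤ rexp y := by
      rw [Real.cosh_eq]
      have : rexp (-y) ≤ rexp y := Real.exp_le_exp.2 (by linarith)
      linarith
    have h3 : Real.cosh ((N + 1) * y) ≤ rexp ((N + 1) * y) := by
      rw [Real.cosh_eq]
      have h0 : 0 ≤ ((N : ℝ) + 1) * y := by positivity
      have : rexp (-((N + 1) * y)) ≤ rexp ((N + 1) * y) := Real.exp_le_exp.2 (by linarith)
      linarith
    have h4 : rexp ((N + 1) * y) = rexp (N * y) * rexp y := by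
      rw [← Real.exp_add]; congr 1; ring
    have h5 : Real.sinh ((N + 1) * y) * Real.cosh y ≤
        ((N + 1) * rexp (N * y) * Real.sinh y) * rexp y := by
      have h6 : 0 ≤ Real.sinh ((N + 1) * y) := Real.sinh_nonneg_iff.2 (by positivity)
      exact mul_le_mul ih h2 (Real.cosh_pos _).le (by positivity)
    have h7 : Real.cosh ((N + 1) * y) * Real.sinh y ≤ rexp ((N + 1) * y) * Real.sinh y :=
      mul_le_mul_of_nonneg_right h3 hs
    rw [h4] at h7 ⊢
    nlinarith

theorem le_sinh_succ_mul (N : ℕ) (y : ℝ) (hy : 0 ≤ y) :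
    (N + 1) * Real.sinh y ≤ Real.sinh ((N + 1) * y) := by
  have hs : 0 ≤ Real.sinh y := Real.sinh_nonneg_iff.2 hy
  induction N with
  | zero => simp
  | succ N ih =>
    push_cast
    have h1 : Real.sinh ((N + 1 + 1) * y) =
        Real.sinh ((N + 1) * y) * Real.cosh y + Real.cosh ((N + 1) * y) * Real.sinh y := by
      rw [← Real.sinh_add]; congr 1; ring
    rw [h1]
    have h2 := Real.one_le_cosh y
    have h3 := Real.one_le_cosh ((N + 1) * y)
    have h6 : 0 ≤ Real.sinh ((N + 1) * y) := Real.sinh_nonneg_iff.2 (by positivity)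
    nlinarith

/-- The odd exponential sum. -/
noncomputable def V (a x : ℝ) : ℝ :=
  ∑' m : ℕ, (1 / (2 * (m : ℝ) + 1)) * rexp (-(a * (2 * m + 1) ^ 2)) * Real.sinh ((2 * m + 1) * x)

/-- The odd theta constant. -/
noncomputable def Th (a : ℝ) : ℝ := ∑' m : ℕ, rexp (-(a * (2 * m + 1) ^ 2))

theorem summable_gauss_int' (a : ℝ) (ha : 0 < a) :
    Summable (fun l : ℤ => rexp (-(a * (l : ℝ) ^ 2))) := by
  simpa using summable_gauss_int a ha 0

theorem summable_Th_shift (a : ℝ) (ha : 0 < a) (q : ℤ) :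
    Summable (fun m : ℕ => rexp (-(a * (2 * m + 1 - q) ^ 2))) := by
  have h := (summable_gauss_int' a ha).comp_injective
    (i := fun m : ℕ => (2 * (m : ℤ) + 1 - q)) (by intro x y h; simp only at h; omega)
  refine h.congr (fun m => ?_)
  simp only [Function.comp]
  push_cast
  rfl

theorem summable_Th (a : ℝ) (ha : 0 < a) :
    Summable (fun m : ℕ => rexp (-(a * (2 * m + 1) ^ 2))) := by
  simpa using summable_Th_shift a ha 0

theorem Th_shift_le (a : ℝ) (ha : 0 < a) (q : ℤ) :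
    ∑' m : ℕ, rexp (-(a * (2 * m + 1 - q) ^ 2)) ≤ 5 * rexp a * Th a := by
  have h1 : ∑' m : ℕ, rexp (-(a * (2 * m + 1 - q) ^ 2)) ≤ ∑' l : ℤ, rexp (-(a * (l : ℝ) ^ 2)) := by
    have := Summable.tsum_le_tsum_of_inj (f := fun m : ℕ => rexp (-(a * (2 * m + 1 - q) ^ 2)))
      (g := fun l : ℤ => rexp (-(a * (l : ℝ) ^ 2)))
      (fun m : ℕ => (2 * (m : ℤ) + 1 - q)) (by intro x y h; simp only at h; omega)
      (fun _ _ => (Real.exp_pos _).le) (fun m => by push_cast; rfl)
      (summable_Th_shift a ha q) (summable_gauss_int' a ha)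
    exact this
  refine h1.trans ?_
  have hTh := summable_Th a ha
  have hnat : Summable (fun l : ℕ => rexp (-(a * ((l : ℝ) + 1) ^ 2))) := by
    have h := (summable_gauss_int' a ha).comp_injective
      (i := fun m : ℕ => ((m : ℤ) + 1)) (by intro x y h; simp only at h; omega)
    refine h.congr (fun m => ?_)
    simp only [Function.comp]
    push_cast
    rfl
  have hnat0 : Summable (fun l : ℕ => rexp (-(a * ((l : ℝ)) ^ 2))) := by
    have h := (summable_gauss_int' a ha).comp_injective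
      (i := fun m : ℕ => ((m : ℤ))) (by intro x y h; simp only at h; omega)
    refine h.congr (fun m => ?_)
    simp only [Function.comp]
    push_cast
    rfl
  -- sum over positive integers
  have hpos : ∑' l : ℕ, rexp (-(a * ((l : ℝ) + 1) ^ 2)) ≤ 2 * Th a := by
    rw [← tsum_even_add_odd (f := fun l : ℕ => rexp (-(a * ((l : ℝ) + 1) ^ 2)))]
    · have e1 : ∑' k : ℕ, rexp (-(a * (((2 * k : ℕ) : ℝ) + 1) ^ 2)) = Th a := by
        unfold Th; push_cast; rfl
      have e2 : ∑' k : ℕ, rexp (-(a * (((2 * k + 1 : ℕ) : ℝ) + 1) ^ 2)) ≤ Th a := by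
        unfold Th
        refine Summable.tsum_le_tsum (fun k => ?_) ?_ hTh
        · apply Real.exp_le_exp.2
          push_cast
          have hk : (0 : ℝ) ≤ k := Nat.cast_nonneg k
          have : (2 * (k : ℝ) + 1) ^ 2 ≤ (2 * (k : ℝ) + 1 + 1) ^ 2 := by nlinarith
          nlinarith
        · exact hnat.comp_injective (i := fun k => 2 * k + 1) (by intro x y h; simp only at h; omega)
      rw [e1]
      linarith
    · exact hnat.comp_injective (i := fun k => 2 * k) (by intro x y h; simp only at h; omega)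
    · exact hnat.comp_injective (i := fun k => 2 * k + 1) (by intro x y h; simp only at h; omega)
  have hZ : ∑' l : ℤ, rexp (-(a * (l : ℝ) ^ 2)) =
      (1 + ∑' l : ℕ, rexp (-(a * ((l : ℝ) + 1) ^ 2))) + ∑' l : ℕ, rexp (-(a * ((l : ℝ) + 1) ^ 2)) := by
    rw [tsum_of_nat_of_neg_add_one]
    · congr 1
      · rw [Summable.tsum_eq_zero_add]
        · simp
        · simpa using hnat0
      · refine tsum_congr (fun l => ?_)
        congr 2
        push_cast
        ring
    · simpa using hnat0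
    · refine hnat.congr (fun l => ?_)
      congr 2
      push_cast
      ring
  rw [hZ]
  have h1le : 1 ≤ rexp a * Th a := by
    have h0 : rexp (-a) ≤ Th a := by
      have := hTh.le_tsum 0 (fun m _ => (Real.exp_pos _).le)
      simpa [Th] using this
    calc (1 : ℝ) = rexp a * rexp (-a) := by rw [← Real.exp_add]; simp
      _ ≤ rexp a * Th a := mul_le_mul_of_nonneg_left h0 (Real.exp_pos _).le
  have hThpos : 0 ≤ Th a := tsum_nonneg (fun m => (Real.exp_pos _).le)
  have hexp : 1 ≤ rexp a := Real.one_le_exp ha.le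
  nlinarith

theorem V_term_bound (a x : ℝ) (ha : 0 < a) (m : ℕ) :
    |(1 / (2 * (m : ℝ) + 1)) * rexp (-(a * (2 * m + 1) ^ 2)) * Real.sinh ((2 * m + 1) * x)| ≤
      rexp (x ^ 2 / (2 * a)) * rexp (-(a / 2 * (2 * m + 1) ^ 2)) := by
  have hm : (0 : ℝ) ≤ m := Nat.cast_nonneg m
  have h1 : |Real.sinh ((2 * m + 1) * x)| ≤ rexp ((2 * m + 1) * |x|) := by
    rw [Real.abs_sinh, abs_mul, abs_of_pos (by positivity : (0 : ℝ) < 2 * m + 1), Real.sinh_eq]
    have := Real.exp_pos ((2 * m + 1) * |x|)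
    have := Real.exp_pos (-((2 * m + 1) * |x|))
    linarith
  rw [abs_mul, abs_mul, abs_of_pos (Real.exp_pos _)]
  have h2 : |1 / (2 * (m : ℝ) + 1)| ≤ 1 := by
    rw [abs_of_pos (by positivity), div_le_one (by positivity)]
    linarith
  calc |1 / (2 * (m : ℝ) + 1)| * rexp (-(a * (2 * m + 1) ^ 2)) * |Real.sinh ((2 * m + 1) * x)|
      ≤ 1 * rexp (-(a * (2 * m + 1) ^ 2)) * rexp ((2 * m + 1) * |x|) := by
        gcongr
    _ = rexp (-(a * (2 * m + 1) ^ 2) + (2 * m + 1) * |x|) := by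
        rw [one_mul, ← Real.exp_add]
    _ ≤ rexp (x ^ 2 / (2 * a) + -(a / 2 * (2 * m + 1) ^ 2)) := by
        apply Real.exp_le_exp.2
        have h3 : x ^ 2 / (2 * a) = |x| ^ 2 / (2 * a) := by rw [sq_abs]
        rw [h3]
        have h4 : 0 ≤ (|x| - a * (2 * m + 1)) ^ 2 / (2 * a) := by positivity
        have h5 : (|x| - a * (2 * m + 1)) ^ 2 / (2 * a) =
          |x| ^ 2 / (2 * a) - (2 * m + 1) * |x| + a / 2 * (2 * m + 1) ^ 2 := by
          field_simp
          ring
        linarith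
    _ = _ := by rw [Real.exp_add]

theorem summable_V (a x : ℝ) (ha : 0 < a) :
    Summable (fun m : ℕ => (1 / (2 * (m : ℝ) + 1)) * rexp (-(a * (2 * m + 1) ^ 2)) *
      Real.sinh ((2 * m + 1) * x)) :=
  Summable.of_norm_bounded ((summable_Th (a / 2) (by positivity)).mul_left _)
    (fun m => by rw [Real.norm_eq_abs]; exact V_term_bound a x ha m)

theorem V_neg (a x : ℝ) : V a (-x) = -V a x := by
  unfold V
  rw [← tsum_neg]
  refine tsum_congr (fun m => ?_)
  rw [mul_neg, Real.sinh_neg]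
  ring

theorem V_term_nonneg (a x : ℝ) (hx : 0 ≤ x) (m : ℕ) :
    0 ≤ (1 / (2 * (m : ℝ) + 1)) * rexp (-(a * (2 * m + 1) ^ 2)) * Real.sinh ((2 * m + 1) * x) := by
  have : 0 ≤ Real.sinh ((2 * m + 1) * x) := Real.sinh_nonneg_iff.2 (by positivity)
  positivity

theorem V_nonneg (a x : ℝ) (hx : 0 ≤ x) : 0 ≤ V a x :=
  tsum_nonneg (V_term_nonneg a x hx)

theorem V_pos (a x : ℝ) (ha : 0 < a) (hx : 0 < x) : 0 < V a x := by
  refine (summable_V a x ha).tsum_pos (V_term_nonneg a x hx.le) 0 ?_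
  have : 0 < Real.sinh ((2 * (0 : ℕ) + 1) * x) := Real.sinh_pos_iff.2 (by positivity)
  positivity

theorem sinh_mul_Th_le_V (a A : ℝ) (ha : 0 < a) (hA : 0 ≤ A) :
    Real.sinh A * Th a ≤ V a A := by
  unfold Th V
  rw [← tsum_mul_left]
  refine Summable.tsum_le_tsum (fun m => ?_) ((summable_Th a ha).mul_left _) (summable_V a A ha)
  have h1 := le_sinh_succ_mul (2 * m) A hA
  push_cast at h1
  have h2 : Real.sinh A ≤ (1 / (2 * (m : ℝ) + 1)) * Real.sinh ((2 * m + 1) * A) := by
    rw [one_div, ← div_eq_inv_mul, le_div_iff₀ (by positivity)]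
    linarith
  calc Real.sinh A * rexp (-(a * (2 * m + 1) ^ 2))
      ≤ ((1 / (2 * (m : ℝ) + 1)) * Real.sinh ((2 * m + 1) * A)) * rexp (-(a * (2 * m + 1) ^ 2)) :=
        mul_le_mul_of_nonneg_right h2 (Real.exp_pos _).le
    _ = _ := by ring

/-- The key ratio bound: here `K + 1 = q n - 1`. -/
theorem V_ratio (a A : ℝ) (ha : 0 < a) (hA : 0 ≤ A) (q K : ℕ)
    (hK : (K : ℝ) * A = 2 * a * q - 2 * A) :
    V a ((K + 1) * A) ≤ 5 * (K + 1) * rexp (a * (q ^ 2 + 1) - 2 * A) * V a A := by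
  have hsA : 0 ≤ Real.sinh A := Real.sinh_nonneg_iff.2 hA
  have hterm : ∀ m : ℕ, (1 / (2 * (m : ℝ) + 1)) * rexp (-(a * (2 * m + 1) ^ 2)) *
      Real.sinh ((2 * m + 1) * ((K + 1) * A)) ≤
      ((K + 1) * rexp (a * q ^ 2 - 2 * A) * Real.sinh A) * rexp (-(a * (2 * m + 1 - q) ^ 2)) := by
    intro m
    have hm : (0 : ℝ) ≤ m := Nat.cast_nonneg m
    have h1 := sinh_succ_mul_le K ((2 * m + 1) * A) (by positivity)
    have h2 := sinh_succ_mul_le (2 * m) A hA
    push_cast at h2
    have e1 : (2 * (m : ℝ) + 1) * ((K + 1) * A) = (K + 1) * ((2 * m + 1) * A) := by ring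
    rw [e1]
    have h3 : Real.sinh ((K + 1) * ((2 * m + 1) * A)) ≤
        (K + 1) * rexp (K * ((2 * m + 1) * A)) * ((2 * m + 1) * rexp (2 * m * A) * Real.sinh A) := by
      refine h1.trans ?_
      exact mul_le_mul_of_nonneg_left h2 (by positivity)
    calc (1 / (2 * (m : ℝ) + 1)) * rexp (-(a * (2 * m + 1) ^ 2)) *
        Real.sinh ((K + 1) * ((2 * m + 1) * A))
        ≤ (1 / (2 * (m : ℝ) + 1)) * rexp (-(a * (2 * m + 1) ^ 2)) *
          ((K + 1) * rexp (K * ((2 * m + 1) * A)) * ((2 * m + 1) * rexp (2 * m * A) * Real.sinh A)) :=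
          mul_le_mul_of_nonneg_left h3 (by positivity)
      _ = (K + 1) * Real.sinh A * (rexp (-(a * (2 * m + 1) ^ 2)) *
          rexp (K * ((2 * m + 1) * A)) * rexp (2 * m * A)) := by
          field_simp
      _ = (K + 1) * Real.sinh A * rexp (-(a * (2 * m + 1) ^ 2) + K * ((2 * m + 1) * A) + 2 * m * A) := by
          rw [Real.exp_add, Real.exp_add]
      _ ≤ (K + 1) * Real.sinh A * rexp ((a * q ^ 2 - 2 * A) + -(a * (2 * m + 1 - q) ^ 2)) := by
          apply mul_le_mul_of_nonneg_left _ (by positivity)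
          apply Real.exp_le_exp.2
          have e2 : (K : ℝ) * ((2 * m + 1) * A) = (2 * m + 1) * (K * A) := by ring
          rw [e2, hK]
          nlinarith [mul_nonneg hm hA]
      _ = _ := by rw [Real.exp_add]; ring
  have hsum2 := (summable_Th_shift a ha (q : ℤ)).mul_left
    ((K + 1) * rexp (a * q ^ 2 - 2 * A) * Real.sinh A)
  have hle := Summable.tsum_le_tsum hterm (summable_V a _ ha) (by simpa using hsum2)
  have hThs := Th_shift_le a ha (q : ℤ)
  rw [tsum_mul_left] at hle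
  have hV : V a ((K + 1) * A) ≤ ((K + 1) * rexp (a * q ^ 2 - 2 * A) * Real.sinh A) *
      (5 * rexp a * Th a) := by
    refine le_trans hle ?_
    refine mul_le_mul_of_nonneg_left ?_ (by positivity)
    simpa using hThs
  refine hV.trans ?_
  have hlow := sinh_mul_Th_le_V a A ha hA
  have e3 : rexp (a * (q ^ 2 + 1) - 2 * A) = rexp (a * q ^ 2 - 2 * A) * rexp a := by
    rw [← Real.exp_add]; congr 1; ring
  rw [e3]
  calc ((K + 1) * rexp (a * q ^ 2 - 2 * A) * Real.sinh A) * (5 * rexp a * Th a)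
      = 5 * (K + 1) * (rexp (a * q ^ 2 - 2 * A) * rexp a) * (Real.sinh A * Th a) := by ring
    _ ≤ _ := mul_le_mul_of_nonneg_left hlow (by positivity)

end Pool.Agent.MP_9b0515_pr
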