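import Pool.Agent.Lib.MP_9b0515_pr.Gauss

set_option autoImplicit false

open Real MeasureTheory ProbabilityTheory
open scoped NNReal RealInnerProductSpace

namespace Pool.Agent.MP_9b0515_pr

theorem norm_comb (n : ℕ) (M1 M2 : StrongDual ℝ (Eu n)) : ∃ c : ℝ, ∀ a b : ℝ,
    ‖a • M1 + b • M2‖ ^ 2 = a ^ 2 * ‖M1‖ ^ 2 + 2 * a * b * c + b ^ 2 * ‖M2‖ ^ 2 := by
  set D := (InnerProductSpace.toDual ℝ (Eu n)).symm with hD
  refine ⟨⟪D M1, D M2⟫, fun a b => ?_⟩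
  have h1 : ‖a • M1 + b • M2‖ = ‖a • D M1 + b • D M2‖ := by
    rw [← LinearIsometryEquiv.norm_map D (a • M1 + b • M2)]
    congr 1
    simp
  rw [h1, ← LinearIsometryEquiv.norm_map D M1, ← LinearIsometryEquiv.norm_map D M2,
    norm_add_sq_real, norm_smul, norm_smul, real_inner_smul_left, real_inner_smul_right,
    mul_pow, mul_pow, Real.norm_eq_abs, Real.norm_eq_abs, sq_abs, sq_abs]
  ring

/-- The law of a `ρ`-correlated pair of standard Gaussian vectors, in two representations. -/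
theorem law_eq (n : ℕ) (ρ : ℝ) (h0 : 0 ≤ ρ) (h1 : ρ ≤ 1) :
    ((gam n).prod (gam n)).map
        (fun p : Eu n × Eu n => (p.1, ρ • p.1 + √(1 - ρ ^ 2) • p.2)) =
      ((gam n).prod ((gam n).prod (gam n))).map
        (fun q : Eu n × (Eu n × Eu n) => (√ρ • q.1 + √(1 - ρ) • q.2.1,
          √ρ • q.1 + √(1 - ρ) • q.2.2)) := by
  let L1 : Eu n × Eu n →L[ℝ] Eu n × Eu n :=
    (ContinuousLinearMap.fst ℝ (Eu n) (Eu n)).prod
      (ρ • ContinuousLinearMap.fst ℝ (Eu n) (Eu n) +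
        √(1 - ρ ^ 2) • ContinuousLinearMap.snd ℝ (Eu n) (Eu n))
  let L2 : Eu n × (Eu n × Eu n) →L[ℝ] Eu n × Eu n :=
    (√ρ • ContinuousLinearMap.fst ℝ (Eu n) (Eu n × Eu n) +
      √(1 - ρ) • (ContinuousLinearMap.fst ℝ (Eu n) (Eu n)).comp
        (ContinuousLinearMap.snd ℝ (Eu n) (Eu n × Eu n))).prod
    (√ρ • ContinuousLinearMap.fst ℝ (Eu n) (Eu n × Eu n) +
      √(1 - ρ) • (ContinuousLinearMap.snd ℝ (Eu n) (Eu n)).comp
        (ContinuousLinearMap.snd ℝ (Eu n) (Eu n × Eu n)))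
  change ((gam n).prod (gam n)).map L1 = ((gam n).prod ((gam n).prod (gam n))).map L2
  apply Measure.ext_of_charFunDual
  ext M
  rw [charFunDual_map, charFunDual_map, charFunDual_prod, charFunDual_prod, charFunDual_prod]
  simp only [charFunDual_stdGaussian]
  set M1 : StrongDual ℝ (Eu n) := M.comp (ContinuousLinearMap.inl ℝ (Eu n) (Eu n)) with hM1
  set M2 : StrongDual ℝ (Eu n) := M.comp (ContinuousLinearMap.inr ℝ (Eu n) (Eu n)) with hM2
  have hM : ∀ x y : Eu n, M (x, y) = M1 x + M2 y := by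
    intro x y
    simp only [hM1, hM2, ContinuousLinearMap.comp_apply, ContinuousLinearMap.inl_apply,
      ContinuousLinearMap.inr_apply]
    rw [← map_add]
    simp
  have e1 : (M.comp L1).comp (ContinuousLinearMap.inl ℝ (Eu n) (Eu n)) =
      (1 : ℝ) • M1 + ρ • M2 := by
    ext x
    simp [L1, hM]
  have e2 : (M.comp L1).comp (ContinuousLinearMap.inr ℝ (Eu n) (Eu n)) =
      (0 : ℝ) • M1 + √(1 - ρ ^ 2) • M2 := by
    ext x
    simp [L1, hM]
  have e3 : (M.comp L2).comp (ContinuousLinearMap.inl ℝ (Eu n) (Eu n × Eu n)) =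
      √ρ • M1 + √ρ • M2 := by
    ext x
    simp [L2, hM]
  have e4 : ((M.comp L2).comp (ContinuousLinearMap.inr ℝ (Eu n) (Eu n × Eu n))).comp
      (ContinuousLinearMap.inl ℝ (Eu n) (Eu n)) = √(1 - ρ) • M1 + (0 : ℝ) • M2 := by
    ext x
    simp [L2, hM]
  have e5 : ((M.comp L2).comp (ContinuousLinearMap.inr ℝ (Eu n) (Eu n × Eu n))).comp
      (ContinuousLinearMap.inr ℝ (Eu n) (Eu n)) = (0 : ℝ) • M1 + √(1 - ρ) • M2 := by
    ext x
    simp [L2, hM]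
  rw [e1, e2, e3, e4, e5]
  obtain ⟨c, hc⟩ := norm_comb n M1 M2
  rw [← Complex.exp_add, ← Complex.exp_add, ← Complex.exp_add]
  congr 1
  have s1 : √(1 - ρ ^ 2) ^ 2 = 1 - ρ ^ 2 := Real.sq_sqrt (by nlinarith)
  have s2 : √ρ ^ 2 = ρ := Real.sq_sqrt h0
  have s3 : √(1 - ρ) ^ 2 = 1 - ρ := Real.sq_sqrt (by linarith)
  have key : -‖(1 : ℝ) • M1 + ρ • M2‖ ^ 2 / 2 + -‖(0 : ℝ) • M1 + √(1 - ρ ^ 2) • M2‖ ^ 2 / 2 =
      -‖√ρ • M1 + √ρ • M2‖ ^ 2 / 2 + (-‖√(1 - ρ) • M1 + (0 : ℝ) • M2‖ ^ 2 / 2 +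
        -‖(0 : ℝ) • M1 + √(1 - ρ) • M2‖ ^ 2 / 2) := by
    rw [hc, hc, hc, hc, hc, s1, s2, s3]
    have s4 : 2 * √ρ * √ρ = 2 * ρ := by rw [mul_assoc, ← pow_two, s2]
    rw [s4]
    ring
  exact_mod_cast congrArg (fun r : ℝ => (r : ℂ)) key

/-- The noise form `E f(X) g(ρ X + √(1-ρ²) Y)`. -/
noncomputable def J (n : ℕ) (ρ : ℝ) (f g : Eu n → ℝ) : ℝ :=
  ∫ p : Eu n × Eu n, f p.1 * g (ρ • p.1 + √(1 - ρ ^ 2) • p.2) ∂((gam n).prod (gam n))

theorem J_eq (n : ℕ) (ρ : ℝ) (h0 : 0 ≤ ρ) (h1 : ρ ≤ 1) (f g : Eu n → ℝ) (hf : Measurable f)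
    (hg : Measurable g) :
    J n ρ f g = ∫ q : Eu n × (Eu n × Eu n), f (√ρ • q.1 + √(1 - ρ) • q.2.1) *
      g (√ρ • q.1 + √(1 - ρ) • q.2.2) ∂((gam n).prod ((gam n).prod (gam n))) := by
  have e1 : J n ρ f g = ∫ p : Eu n × Eu n, f p.1 * g p.2
      ∂(((gam n).prod (gam n)).map
        (fun p : Eu n × Eu n => (p.1, ρ • p.1 + √(1 - ρ ^ 2) • p.2))) := by
    rw [integral_map (by fun_prop)]
    · rfl
    · exact ((hf.comp measurable_fst).mul (hg.comp measurable_snd)).aestronglyMeasurable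
  rw [e1, law_eq n ρ h0 h1, integral_map (by fun_prop)]
  exact ((hf.comp measurable_fst).mul (hg.comp measurable_snd)).aestronglyMeasurable

theorem J_symm (n : ℕ) (ρ : ℝ) (h0 : 0 ≤ ρ) (h1 : ρ ≤ 1) (f g : Eu n → ℝ) (hf : Measurable f)
    (hg : Measurable g) : J n ρ f g = J n ρ g f := by
  rw [J_eq n ρ h0 h1 f g hf hg, J_eq n ρ h0 h1 g f hg hf]
  have hswap : ((gam n).prod ((gam n).prod (gam n))).map
      (fun q : Eu n × (Eu n × Eu n) => (q.1, (q.2.2, q.2.1))) =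
      (gam n).prod ((gam n).prod (gam n)) := by
    have h := Measure.map_prod_map (gam n) ((gam n).prod (gam n)) (f := id)
      (g := Prod.swap) measurable_id measurable_swap
    rw [Measure.map_id, Measure.prod_swap] at h
    exact h.symm
  conv_rhs => rw [← hswap]
  rw [integral_map (by fun_prop)]
  · refine integral_congr_ae (Filter.Eventually.of_forall fun q => ?_)
    simp only
    ring
  · apply Measurable.aestronglyMeasurable
    exact (hg.comp (by fun_prop)).mul (hf.comp (by fun_prop))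

theorem J_nonneg (n : ℕ) (ρ : ℝ) (h0 : 0 ≤ ρ) (h1 : ρ ≤ 1) (f : Eu n → ℝ) (hf : Measurable f)
    (C : ℝ) (hC : ∀ x, |f x| ≤ C) : 0 ≤ J n ρ f f := by
  rw [J_eq n ρ h0 h1 f f hf hf]
  have hC0 : 0 ≤ C := (abs_nonneg _).trans (hC 0)
  have hint : Integrable (fun q : Eu n × (Eu n × Eu n) => f (√ρ • q.1 + √(1 - ρ) • q.2.1) *
      f (√ρ • q.1 + √(1 - ρ) • q.2.2)) ((gam n).prod ((gam n).prod (gam n))) := by
    refine Integrable.of_bound (C := C * C) ?_ (Filter.Eventually.of_forall fun q => ?_)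
    · exact ((hf.comp (by fun_prop)).mul (hf.comp (by fun_prop))).aestronglyMeasurable
    · rw [norm_mul, Real.norm_eq_abs, Real.norm_eq_abs]
      exact mul_le_mul (hC _) (hC _) (abs_nonneg _) hC0
  rw [integral_prod _ hint]
  refine integral_nonneg (fun z => ?_)
  simp only [Pi.zero_apply]
  rw [integral_prod_mul (fun w => f (√ρ • z + √(1 - ρ) • w)) (fun w => f (√ρ • z + √(1 - ρ) • w))]
  exact mul_self_nonneg _

end Pool.Agent.MP_9b0515_pr
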