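import Pool.Agent.Lib.MP_9b0515_pr.Fold
import Pool.Agent.Lib.MP_9b0515_pr.Noise

set_option autoImplicit false

open Real MeasureTheory ProbabilityTheory
open scoped NNReal RealInnerProductSpace

namespace Pool.Agent.MP_9b0515_pr

/-- The sum of the coordinates. -/
noncomputable def ssum (n : ℕ) (x : Eu n) : ℝ := ∑ j, x j

theorem measurable_ssum (n : ℕ) : Measurable (ssum n) := by
  unfold ssum; fun_prop

theorem ssum_neg (n : ℕ) (x : Eu n) : ssum n (-x) = -ssum n x := by
  simp [ssum]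

theorem ssum_sub_single (n : ℕ) (x : Eu n) (i : Fin n) :
    ssum n (x - EuclideanSpace.single i (1 : ℝ)) = ssum n x - 1 := by
  simp [ssum]

theorem ssum_comb (n : ℕ) (a b : ℝ) (x y : Eu n) :
    ssum n (a • x + b • y) = a * ssum n x + b * ssum n y := by
  simp [ssum, Finset.sum_add_distrib, Finset.mul_sum]

theorem zero_set_countable : {s : ℝ | Real.sin (π * s) = 0}.Countable := by
  have : {s : ℝ | Real.sin (π * s) = 0} ⊆ Set.range (fun k : ℤ => (k : ℝ)) := by
    intro s hs
    obtain ⟨k, hk⟩ := Real.sin_eq_zero_iff.1 hs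
    refine ⟨k, ?_⟩
    have := Real.pi_ne_zero
    have h2 : π * ((k : ℝ) - s) = 0 := by linarith
    rcases mul_eq_zero.1 h2 with h | h
    · exact absurd h this
    · simp only; linarith
  exact (Set.countable_range _).mono this

theorem ae_gam_sin_ne (n : ℕ) (hn : 0 < n) : ∀ᵐ x ∂(gam n), Real.sin (π * ssum n x) ≠ 0 := by
  have hw0 : (n : ℝ≥0) ≠ 0 := by positivity
  have hlaw := map_inner n (one n) (n : ℝ≥0) (by rw [norm_one_sq]; simp)
  have h1 : ∀ᵐ s ∂(gaussianReal 0 (n : ℝ≥0)), Real.sin (π * s) ≠ 0 := by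
    have h2 : ∀ᵐ s : ℝ, Real.sin (π * s) ≠ 0 := by
      rw [ae_iff]
      simpa using zero_set_countable.measure_zero volume
    exact (gaussianReal_absolutelyContinuous 0 hw0).ae_le h2
  rw [← hlaw] at h1
  have h3 := ae_of_ae_map (by fun_prop) h1
  filter_upwards [h3] with x hx
  rwa [inner_one] at hx

theorem ae_vol_sin_ne (n : ℕ) (hn : 0 < n) :
    ∀ᵐ x ∂(volume : Measure (Eu n)), Real.sin (π * ssum n x) ≠ 0 := by
  let L : Eu n →ₗ[ℝ] ℝ := (innerSL ℝ (one n) : StrongDual ℝ (Eu n)).toLinearMap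
  have hL : ∀ x, L x = ssum n x := by
    intro x
    simp only [L, ssum]
    rw [← inner_one]
    rfl
  have hsurj : Function.Surjective L := by
    intro r
    refine ⟨EuclideanSpace.single ⟨0, hn⟩ r, ?_⟩
    rw [hL]
    simp [ssum]
  obtain ⟨c, -, hc⟩ := LinearMap.exists_map_addHaar_eq_smul_addHaar L
    (volume : Measure (Eu n)) (volume : Measure ℝ) hsurj
  have hmeas : Measurable L := by
    have : (L : Eu n → ℝ) = ssum n := funext hL
    rw [this]; exact measurable_ssum n
  rw [ae_iff]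
  have h0 : (volume : Measure (Eu n)).map L {s : ℝ | Real.sin (π * s) = 0} = 0 := by
    rw [hc]
    simp [zero_set_countable.measure_zero volume]
  rw [Measure.map_apply hmeas (measurableSet_eq_fun (by fun_prop) (by fun_prop))] at h0
  refine le_antisymm (le_trans (measure_mono ?_) h0.le) (zero_le)
  intro x hx
  simp only [ne_eq, not_not, Set.mem_ofPred_eq] at hx
  simp only [Set.mem_preimage, Set.mem_ofPred_eq, hL]
  exact hx

theorem gam_map_neg (n : ℕ) : (gam n).map (fun x => -x) = gam n := by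
  have h := stdGaussian_map (LinearIsometryEquiv.neg ℝ (E := Eu n))
  have e : (⇑(LinearIsometryEquiv.neg ℝ (E := Eu n))) = fun x => -x := by
    ext x; simp
  rw [e] at h
  exact h

theorem integral_gam_neg (n : ℕ) (f : Eu n → ℝ) (hf : Measurable f) :
    ∫ x, f (-x) ∂(gam n) = ∫ x, f x ∂(gam n) := by
  conv_rhs => rw [← gam_map_neg n]
  rw [integral_map (by fun_prop) hf.aestronglyMeasurable]

/-- Noise stability. -/
noncomputable def stab (n : ℕ) (ρ : ℝ) (A : Set (Eu n)) : ℝ :=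
  ((gam n).prod (gam n)).real {p | p.1 ∈ A ∧ ρ • p.1 + √(1 - ρ ^ 2) • p.2 ∈ A}

theorem integrable_of_bdd {α : Type*} [MeasurableSpace α] (μ : Measure α) [IsFiniteMeasure μ]
    (f : α → ℝ) (hf : Measurable f) (C : ℝ) (hC : ∀ x, |f x| ≤ C) : Integrable f μ :=
  Integrable.of_bound (C := C) hf.aestronglyMeasurable
    (Filter.Eventually.of_forall fun x => by rw [Real.norm_eq_abs]; exact hC x)

theorem stab_eq (n : ℕ) (ρ : ℝ) (h0 : 0 ≤ ρ) (h1 : ρ ≤ 1) (A : Set (Eu n)) (hA : MeasurableSet A)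
    (f : Eu n → ℝ) (hf : Measurable f) (hfA : ∀ x, x ∈ A → f x = 1) (hfA' : ∀ x, x ∉ A → f x = -1)
    (hint : ∫ x, f x ∂(gam n) = 0) : stab n ρ A = (1 + J n ρ f f) / 4 := by
  have hbd : ∀ x, |f x| ≤ 1 := by
    intro x
    by_cases hx : x ∈ A
    · rw [hfA x hx]; simp
    · rw [hfA' x hx]; simp
  set T : Eu n × Eu n → Eu n := fun p => ρ • p.1 + √(1 - ρ ^ 2) • p.2 with hT
  have hTm : Measurable T := by fun_prop
  have hset : MeasurableSet {p : Eu n × Eu n | p.1 ∈ A ∧ T p ∈ A} :=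
    (measurable_fst hA).inter (hTm hA)
  have e1 : stab n ρ A = ∫ p, (1 + f p.1) * (1 + f (T p)) / 4 ∂((gam n).prod (gam n)) := by
    unfold stab
    rw [← integral_indicator_one hset]
    refine integral_congr_ae (Filter.Eventually.of_forall fun p => ?_)
    change _ = (1 + f p.1) * (1 + f (T p)) / 4
    by_cases hp1 : p.1 ∈ A <;> by_cases hp2 : T p ∈ A
    · rw [Set.indicator_of_mem (show p ∈ {p : Eu n × Eu n | p.1 ∈ A ∧ T p ∈ A} from ⟨hp1, hp2⟩),
        hfA _ hp1, hfA _ hp2]; norm_num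
    · rw [Set.indicator_of_notMem (fun h : p ∈ {p : Eu n × Eu n | p.1 ∈ A ∧ T p ∈ A} => hp2 h.2),
        hfA _ hp1, hfA' _ hp2]; norm_num
    · rw [Set.indicator_of_notMem (fun h : p ∈ {p : Eu n × Eu n | p.1 ∈ A ∧ T p ∈ A} => hp1 h.1),
        hfA' _ hp1, hfA _ hp2]; norm_num
    · rw [Set.indicator_of_notMem (fun h : p ∈ {p : Eu n × Eu n | p.1 ∈ A ∧ T p ∈ A} => hp1 h.1),
        hfA' _ hp1, hfA' _ hp2]; norm_num
  have hm1 : Measurable (fun p : Eu n × Eu n => f p.1) := hf.comp measurable_fst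
  have hm2 : Measurable (fun p : Eu n × Eu n => f (T p)) := hf.comp hTm
  have i1 : Integrable (fun p : Eu n × Eu n => f p.1) ((gam n).prod (gam n)) :=
    integrable_of_bdd _ _ hm1 1 (fun p => hbd _)
  have i2 : Integrable (fun p : Eu n × Eu n => f (T p)) ((gam n).prod (gam n)) :=
    integrable_of_bdd _ _ hm2 1 (fun p => hbd _)
  have i3 : Integrable (fun p : Eu n × Eu n => f p.1 * f (T p)) ((gam n).prod (gam n)) :=
    integrable_of_bdd _ _ (hm1.mul hm2) 1 (fun p => by
      rw [abs_mul]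
      calc |f p.1| * |f (T p)| ≤ 1 * 1 := mul_le_mul (hbd _) (hbd _) (abs_nonneg _) zero_le_one
        _ = 1 := by norm_num)
  have z1 : ∫ p : Eu n × Eu n, f p.1 ∂((gam n).prod (gam n)) = 0 := by
    rw [integral_prod _ i1]
    simp [hint]
  have z2 : ∫ p : Eu n × Eu n, f (T p) ∂((gam n).prod (gam n)) = 0 := by
    have h := J_symm n ρ h0 h1 (fun _ => 1) f measurable_const hf
    unfold J at h
    simp only [one_mul, mul_one] at h
    rw [z1] at h
    exact h
  rw [e1]
  have e2 : ∀ p : Eu n × Eu n, (1 + f p.1) * (1 + f (T p)) / 4 =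
      (1 / 4) * (1 + f p.1 + f (T p) + f p.1 * f (T p)) := by
    intro p; ring
  simp_rw [e2]
  have i0 : Integrable (fun _ : Eu n × Eu n => (1 : ℝ)) ((gam n).prod (gam n)) :=
    integrable_const 1
  have i01 : Integrable (fun p : Eu n × Eu n => 1 + f p.1) ((gam n).prod (gam n)) := i0.add i1
  have i012 : Integrable (fun p : Eu n × Eu n => 1 + f p.1 + f (T p)) ((gam n).prod (gam n)) :=
    i01.add i2
  rw [integral_const_mul, integral_add i012 i3, integral_add i01 i2, integral_add i0 i1, z1, z2]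
  simp only [integral_const, probReal_univ, smul_eq_mul, mul_one, add_zero]
  unfold J
  ring

theorem J_expand (n : ℕ) (ρ : ℝ) (h0 : 0 ≤ ρ) (h1 : ρ ≤ 1) (f u : Eu n → ℝ) (hf : Measurable f)
    (hu : Measurable u) (C : ℝ) (hC : ∀ x, |f x| ≤ C) (hCu : ∀ x, |u x| ≤ C) :
    J n ρ (fun x => f x + u x) (fun x => f x + u x) =
      J n ρ f f + 2 * J n ρ u f + J n ρ u u := by
  have hsym := J_symm n ρ h0 h1 f u hf hu
  set T : Eu n × Eu n → Eu n := fun p => ρ • p.1 + √(1 - ρ ^ 2) • p.2 with hT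
  have hTm : Measurable T := by fun_prop
  have hC0 : 0 ≤ C := (abs_nonneg _).trans (hC 0)
  have hb : ∀ (a b : Eu n → ℝ), Measurable a → Measurable b → (∀ x, |a x| ≤ C) →
      (∀ x, |b x| ≤ C) →
      Integrable (fun p : Eu n × Eu n => a p.1 * b (T p)) ((gam n).prod (gam n)) := by
    intro a b ha hb ha' hb'
    refine integrable_of_bdd _ _ ((ha.comp measurable_fst).mul (hb.comp hTm)) (C * C) (fun p => ?_)
    rw [abs_mul]
    exact mul_le_mul (ha' _) (hb' _) (abs_nonneg _) hC0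
  have e1 : J n ρ (fun x => f x + u x) (fun x => f x + u x) =
      ∫ p, ((f p.1 * f (T p) + f p.1 * u (T p)) + u p.1 * f (T p)) + u p.1 * u (T p)
        ∂((gam n).prod (gam n)) := by
    unfold J
    refine integral_congr_ae (Filter.Eventually.of_forall fun p => ?_)
    simp only [hT]
    ring
  have j1 : Integrable (fun p : Eu n × Eu n => f p.1 * f (T p) + f p.1 * u (T p))
      ((gam n).prod (gam n)) := (hb f f hf hf hC hC).add (hb f u hf hu hC hCu)
  have j2 : Integrable (fun p : Eu n × Eu n => f p.1 * f (T p) + f p.1 * u (T p) + u p.1 * f (T p))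
      ((gam n).prod (gam n)) := j1.add (hb u f hu hf hCu hC)
  rw [e1, integral_add j2 (hb u u hu hu hCu hCu), integral_add j1 (hb u f hu hf hCu hC),
    integral_add (hb f f hf hf hC hC) (hb f u hf hu hC hCu)]
  have e2 : ∫ p, f p.1 * u (T p) ∂((gam n).prod (gam n)) = J n ρ f u := rfl
  have e3 : ∫ p, u p.1 * f (T p) ∂((gam n).prod (gam n)) = J n ρ u f := rfl
  have e4 : ∫ p, f p.1 * f (T p) ∂((gam n).prod (gam n)) = J n ρ f f := rfl
  have e5 : ∫ p, u p.1 * u (T p) ∂((gam n).prod (gam n)) = J n ρ u u := rfl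
  rw [e2, e3, e4, e5, hsym]
  ring

/-- The square wave of the sum of the coordinates. -/
noncomputable def fB (n : ℕ) (x : Eu n) : ℝ := wave (ssum n x)

theorem measurable_fB (n : ℕ) : Measurable (fB n) := measurable_wave.comp (measurable_ssum n)

theorem J_smooth (n : ℕ) (ρ : ℝ) (h0 : 0 ≤ ρ) (h1 : ρ ≤ 1) (g : Eu n → ℝ) (hg : Measurable g)
    (C : ℝ) (hC : ∀ x, |g x| ≤ C) (v : ℝ≥0) (hv : (v : ℝ) = (1 - ρ ^ 2) * n) :
    J n ρ g (fB n) = ∫ x, g x * smooth v (ρ * ssum n x) ∂(gam n) := by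
  have hC0 : 0 ≤ C := (abs_nonneg _).trans (hC 0)
  unfold J
  have hint : Integrable (fun p : Eu n × Eu n => g p.1 * fB n (ρ • p.1 + √(1 - ρ ^ 2) • p.2))
      ((gam n).prod (gam n)) := by
    refine integrable_of_bdd _ _ ((hg.comp measurable_fst).mul
      ((measurable_fB n).comp (by fun_prop))) C (fun p => ?_)
    rw [abs_mul, fB, abs_wave, mul_one]
    exact hC _
  rw [integral_prod _ hint]
  refine integral_congr_ae (Filter.Eventually.of_forall fun x => ?_)
  simp only
  rw [integral_const_mul]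
  congr 1
  have hlaw := map_inner n (√(1 - ρ ^ 2) • one n) v (by
    rw [norm_smul, mul_pow, norm_one_sq, Real.norm_eq_abs, sq_abs, Real.sq_sqrt (by nlinarith), hv])
  unfold smooth
  rw [← hlaw, integral_map (by fun_prop)]
  · refine integral_congr_ae (Filter.Eventually.of_forall fun y => ?_)
    simp only [fB]
    rw [ssum_comb, real_inner_smul_left, inner_one]
    rfl
  · exact (measurable_wave.comp (by fun_prop)).aestronglyMeasurable

end Pool.Agent.MP_9b0515_pr
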