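import Pool.Agent.Lib.MP_9b0515_pr.Ineq

set_option autoImplicit false

open Real

namespace Pool.Agent.MP_9b0515_pr

theorem exponent_bound (n q : ℝ) (hn : 3 ≤ n) (hq : 1 ≤ q) :
    (n - 2) * q ≤ 2 * q ^ 2 * n - 4 * q - n * (q ^ 2 + 1) / 2 + 2 := by
  have h : 0 ≤ (q - 1) * (n * (3 * q + 1) / 2 - 2) := by
    apply mul_nonneg (by linarith)
    nlinarith
  nlinarith

theorem pi_sq_gt : (9.8 : ℝ) < π ^ 2 := by
  have := Real.pi_gt_d2
  nlinarith

theorem neg_term_bound (n : ℕ) (hn : 3 ≤ n) (δ : ℝ) (hδ0 : 0 < δ) (hδ : δ < 1 / 2) (k : ℕ) :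
    rexp (-(2 * π ^ 2 * (1 + (-((k : ℝ) + 1)) * n) ^ 2 / n)) *
      V (π ^ 2 * n * δ) (2 * π ^ 2 * δ * (((k : ℝ) + 1) * n - 1)) ≤
    (1 / 4) ^ (k + 1) * (rexp (-(2 * π ^ 2 / n)) * V (π ^ 2 * n * δ) (2 * π ^ 2 * δ)) := by
  have hn' : (3 : ℝ) ≤ n := by exact_mod_cast hn
  have hpi := pi_sq_gt
  have ha : 0 < π ^ 2 * n * δ := by positivity
  have hA : 0 ≤ 2 * π ^ 2 * δ := by positivity
  obtain ⟨K, hK⟩ : ∃ K : ℕ, (k + 1) * n = K + 2 := ⟨(k + 1) * n - 2, by
    have : 3 ≤ (k + 1) * n := by nlinarith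
    omega⟩
  have hK' : ((k : ℝ) + 1) * n = K + 2 := by exact_mod_cast hK
  have hVr := V_ratio (π ^ 2 * n * δ) (2 * π ^ 2 * δ) ha hA (k + 1) K (by
    push_cast
    have : (K : ℝ) = (k + 1) * n - 2 := by linarith
    rw [this]; ring)
  have e1 : 2 * π ^ 2 * δ * (((k : ℝ) + 1) * n - 1) = (K + 1) * (2 * π ^ 2 * δ) := by
    rw [hK']; ring
  rw [e1]
  have hV0 : 0 ≤ V (π ^ 2 * n * δ) (2 * π ^ 2 * δ) := V_nonneg _ _ hA
  push_cast at hVr
  calc rexp (-(2 * π ^ 2 * (1 + (-((k : ℝ) + 1)) * n) ^ 2 / n)) *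
      V (π ^ 2 * n * δ) ((K + 1) * (2 * π ^ 2 * δ))
      ≤ rexp (-(2 * π ^ 2 * (1 + (-((k : ℝ) + 1)) * n) ^ 2 / n)) *
        (5 * (K + 1) * rexp (π ^ 2 * n * δ * (((k : ℝ) + 1) ^ 2 + 1) - 2 * (2 * π ^ 2 * δ)) *
          V (π ^ 2 * n * δ) (2 * π ^ 2 * δ)) :=
        mul_le_mul_of_nonneg_left hVr (Real.exp_pos _).le
    _ = (5 * (K + 1) * (rexp (-(2 * π ^ 2 * (1 + (-((k : ℝ) + 1)) * n) ^ 2 / n)) *
          rexp (π ^ 2 * n * δ * (((k : ℝ) + 1) ^ 2 + 1) - 2 * (2 * π ^ 2 * δ)))) *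
          V (π ^ 2 * n * δ) (2 * π ^ 2 * δ) := by ring
    _ ≤ ((1 / 4) ^ (k + 1) * rexp (-(2 * π ^ 2 / n))) * V (π ^ 2 * n * δ) (2 * π ^ 2 * δ) := by
        apply mul_le_mul_of_nonneg_right _ hV0
        have h5 : (5 : ℝ) ≤ rexp 2 := by
          have h := Real.exp_one_gt_d9
          have : rexp 2 = rexp 1 * rexp 1 := by rw [← Real.exp_add]; norm_num
          rw [this]; nlinarith
        have hK1 : ((K : ℝ) + 1) ≤ rexp K := Real.add_one_le_exp _
        have h14 : rexp (-2) ≤ 1 / 4 := by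
          rw [Real.exp_neg, one_div]
          apply inv_anti₀ (by norm_num)
          linarith
        have hq : rexp (-(6 * ((k : ℝ) + 1))) ≤ (1 / 4) ^ (k + 1) := by
          calc rexp (-(6 * ((k : ℝ) + 1))) ≤ rexp (((k + 1 : ℕ) : ℝ) * (-2)) := by
                apply Real.exp_le_exp.2
                push_cast
                have : (0 : ℝ) ≤ k := Nat.cast_nonneg k
                linarith
            _ = rexp (-2) ^ (k + 1) := by rw [Real.exp_nat_mul]
            _ ≤ (1 / 4) ^ (k + 1) := pow_le_pow_left₀ (Real.exp_pos _).le h14 _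
        calc 5 * ((K : ℝ) + 1) * (rexp (-(2 * π ^ 2 * (1 + (-((k : ℝ) + 1)) * n) ^ 2 / n)) *
              rexp (π ^ 2 * n * δ * (((k : ℝ) + 1) ^ 2 + 1) - 2 * (2 * π ^ 2 * δ)))
            ≤ rexp 2 * rexp K * (rexp (-(2 * π ^ 2 * (1 + (-((k : ℝ) + 1)) * n) ^ 2 / n)) *
              rexp (π ^ 2 * n * δ * (((k : ℝ) + 1) ^ 2 + 1) - 2 * (2 * π ^ 2 * δ))) := by
              apply mul_le_mul_of_nonneg_right _ (by positivity)
              exact mul_le_mul h5 hK1 (by positivity) (Real.exp_pos _).le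
          _ = rexp (2 + K + (-(2 * π ^ 2 * (1 + (-((k : ℝ) + 1)) * n) ^ 2 / n)) +
              (π ^ 2 * n * δ * (((k : ℝ) + 1) ^ 2 + 1) - 2 * (2 * π ^ 2 * δ))) := by
              rw [Real.exp_add, Real.exp_add, Real.exp_add]; ring
          _ ≤ rexp (-(6 * ((k : ℝ) + 1)) + -(2 * π ^ 2 / n)) := by
              apply Real.exp_le_exp.2
              have hKv : (K : ℝ) = (k + 1) * n - 2 := by linarith
              rw [hKv]
              set q : ℝ := (k : ℝ) + 1 with hqdef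
              have hq1 : 1 ≤ q := by
                have : (0 : ℝ) ≤ k := Nat.cast_nonneg k
                linarith
              have e2 : 2 * π ^ 2 * (1 + (-q) * n) ^ 2 / n = 2 * π ^ 2 / n +
                  π ^ 2 * (2 * q ^ 2 * n - 4 * q) := by
                field_simp
                ring
              rw [e2]
              have e3 : π ^ 2 * n * δ * (q ^ 2 + 1) - 2 * (2 * π ^ 2 * δ) =
                  π ^ 2 * (δ * (n * (q ^ 2 + 1) - 4)) := by ring
              rw [e3]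
              have hb := exponent_bound n q hn' hq1
              have h6 : δ * (n * (q ^ 2 + 1) - 4) ≤ 1 / 2 * (n * (q ^ 2 + 1) - 4) := by
                apply mul_le_mul_of_nonneg_right hδ.le
                nlinarith
              have h7 : π ^ 2 * (δ * (n * (q ^ 2 + 1) - 4)) - π ^ 2 * (2 * q ^ 2 * n - 4 * q) ≤
                  -(π ^ 2 * ((n - 2) * q)) := by
                have : δ * (n * (q ^ 2 + 1) - 4) - (2 * q ^ 2 * n - 4 * q) ≤ -((n - 2) * q) := by
                  linarith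
                have h8 := mul_le_mul_of_nonneg_left this (by positivity : (0 : ℝ) ≤ π ^ 2)
                linarith
              have h9 : 9.8 * ((n - 2) * q) ≤ π ^ 2 * ((n - 2) * q) := by
                apply mul_le_mul_of_nonneg_right hpi.le
                nlinarith
              nlinarith
          _ = rexp (-(6 * ((k : ℝ) + 1))) * rexp (-(2 * π ^ 2 / n)) := Real.exp_add _ _
          _ ≤ _ := mul_le_mul_of_nonneg_right hq (Real.exp_pos _).le
    _ = _ := by ring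

/-- Summability over `p` of the final series. -/
theorem pos_sum (n : ℕ) (hn : 3 ≤ n) (δ : ℝ) (hδ0 : 0 < δ) (hδ : δ < 1 / 2)
    (hs : Summable (fun p : ℤ => rexp (-(2 * π ^ 2 * (1 + p * n) ^ 2 / n)) *
      V (π ^ 2 * n * δ) (2 * π ^ 2 * δ * (1 + p * n)))) :
    0 < ∑' p : ℤ, rexp (-(2 * π ^ 2 * (1 + p * n) ^ 2 / n)) *
      V (π ^ 2 * n * δ) (2 * π ^ 2 * δ * (1 + p * n)) := by
  have hn' : (3 : ℝ) ≤ n := by exact_mod_cast hn
  have ha : 0 < π ^ 2 * n * δ := by positivity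
  set g : ℤ → ℝ := fun p => rexp (-(2 * π ^ 2 * (1 + p * n) ^ 2 / n)) *
      V (π ^ 2 * n * δ) (2 * π ^ 2 * δ * (1 + p * n)) with hg
  set c : ℝ := rexp (-(2 * π ^ 2 / n)) * V (π ^ 2 * n * δ) (2 * π ^ 2 * δ) with hc
  have hcpos : 0 < c := mul_pos (Real.exp_pos _) (V_pos _ _ ha (by positivity))
  have hs1 : Summable (fun k : ℕ => g k) := hs.comp_injective Nat.cast_injective
  have hs2 : Summable (fun k : ℕ => g (-((k : ℤ) + 1))) :=
    hs.comp_injective (i := fun k : ℕ => (-((k : ℤ) + 1))) (by intro x y h; simp only at h; omega)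
  rw [show (∑' p : ℤ, g p) = _ from tsum_of_nat_of_neg_add_one hs1 hs2]
  have h1 : c ≤ ∑' k : ℕ, g k := by
    have := hs1.le_tsum 0 (fun m _ => ?_)
    · refine le_trans (le_of_eq ?_) this
      simp [hg, hc]
    · simp only [hg]
      apply mul_nonneg (Real.exp_pos _).le
      apply V_nonneg
      push_cast
      positivity
  have hgeo : Summable (fun k : ℕ => (1 / 4 : ℝ) ^ (k + 1) * c) := by
    have := (summable_geometric_of_lt_one (by norm_num : (0 : ℝ) ≤ 1 / 4) (by norm_num)).mul_left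
      ((1 / 4) * c)
    refine this.congr (fun k => ?_)
    rw [pow_succ]; ring
  have h2 : -(c / 3) ≤ ∑' k : ℕ, g (-((k : ℤ) + 1)) := by
    have hle : ∑' k : ℕ, -((1 / 4 : ℝ) ^ (k + 1) * c) ≤ ∑' k : ℕ, g (-((k : ℤ) + 1)) := by
      refine Summable.tsum_le_tsum (fun k => ?_) hgeo.neg hs2
      have hb := neg_term_bound n hn δ hδ0 hδ k
      have e1 : g (-((k : ℤ) + 1)) = -(rexp (-(2 * π ^ 2 * (1 + (-((k : ℝ) + 1)) * n) ^ 2 / n)) *
          V (π ^ 2 * n * δ) (2 * π ^ 2 * δ * (((k : ℝ) + 1) * n - 1))) := by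
        simp only [hg]
        push_cast
        have : 2 * π ^ 2 * δ * (1 + -((k : ℝ) + 1) * n) = -(2 * π ^ 2 * δ * (((k : ℝ) + 1) * n - 1)) := by
          ring
        rw [this, V_neg]
        ring
      rw [e1]
      linarith
    have hval : ∑' k : ℕ, -((1 / 4 : ℝ) ^ (k + 1) * c) = -(c / 3) := by
      rw [tsum_neg]
      congr 1
      have : ∀ k : ℕ, (1 / 4 : ℝ) ^ (k + 1) * c = ((1 / 4) * c) * (1 / 4) ^ k := by
        intro k; rw [pow_succ]; ring
      simp_rw [this]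
      rw [tsum_mul_left, tsum_geometric_of_lt_one (by norm_num) (by norm_num)]
      ring
    rw [← hval]
    exact hle
  linarith

end Pool.Agent.MP_9b0515_pr
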