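import Pool.Agent.Lib.MP_9b0515_pr.Theta

set_option autoImplicit false

open Real MeasureTheory ProbabilityTheory
open scoped NNReal

namespace Pool.Agent.MP_9b0515_pr

/-- The square wave: `1` where `sin (π s) ≥ 0` and `-1` elsewhere. -/
noncomputable def wave (s : ℝ) : ℝ := if 0 ≤ Real.sin (π * s) then 1 else -1

theorem measurable_wave : Measurable wave := by
  unfold wave
  refine Measurable.ite ?_ measurable_const measurable_const
  exact measurableSet_le measurable_const (by fun_prop)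

theorem abs_wave (s : ℝ) : |wave s| = 1 := by
  unfold wave
  split_ifs <;> simp

theorem wave_mul_self (s : ℝ) : wave s * wave s = 1 := by
  unfold wave
  split_ifs <;> simp

theorem wave_eq_one_or (s : ℝ) : wave s = 1 ∨ wave s = -1 := by
  unfold wave
  split_ifs <;> simp

theorem wave_add_int {x : ℝ} (hx : x ∈ Set.Ioo (0 : ℝ) 1) (k : ℤ) :
    wave (x + k) = (-1 : ℝ) ^ k := by
  have hpos : 0 < Real.sin (π * x) := by
    apply Real.sin_pos_of_pos_of_lt_pi
    · exact mul_pos Real.pi_pos hx.1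
    · nlinarith [Real.pi_pos, hx.2]
  have h1 : Real.sin (π * (x + k)) = (-1 : ℝ) ^ k * Real.sin (π * x) := by
    rw [show π * (x + k) = π * x + k * π by ring, Real.sin_add_int_mul_pi]
  unfold wave
  rw [h1]
  rcases Int.even_or_odd k with hk | hk
  · rw [hk.neg_one_zpow, one_mul, if_pos hpos.le]
  · rw [hk.neg_one_zpow, if_neg]
    linarith

theorem wave_neg {s : ℝ} (hs : Real.sin (π * s) ≠ 0) : wave (-s) = -wave s := by
  unfold wave
  rw [mul_neg, Real.sin_neg]
  rcases lt_or_gt_of_ne hs with h | h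
  · rw [if_pos (by linarith), if_neg (by linarith)]; simp
  · rw [if_neg (by linarith), if_pos (by linarith)]

theorem wave_add_one {s : ℝ} (hs : Real.sin (π * s) ≠ 0) : wave (s + 1) = -wave s := by
  unfold wave
  rw [show π * (s + 1) = π * s + π by ring, Real.sin_add_pi]
  rcases lt_or_gt_of_ne hs with h | h
  · rw [if_pos (by linarith), if_neg (by linarith)]; simp
  · rw [if_neg (by linarith), if_pos (by linarith)]

/-- The square wave smoothed by a centred Gaussian of variance `v`. -/
noncomputable def smooth (v : ℝ≥0) (s : ℝ) : ℝ := ∫ u, wave (s + u) ∂(gaussianReal 0 v)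

theorem smooth_eq_integral (v : ℝ≥0) (hv : v ≠ 0) (s : ℝ) :
    smooth v s = ∫ t, gaussianPDFReal 0 v (t - s) * wave t := by
  unfold smooth
  rw [integral_gaussianReal_eq_integral_smul hv]
  rw [← integral_sub_right_eq_self (fun u => gaussianPDFReal 0 v u • wave (s + u)) s]
  refine integral_congr_ae (Filter.Eventually.of_forall (fun t => ?_))
  simp

/-- coefficient of the Fourier series of `smooth v` -/
noncomputable def coef (v : ℝ) (m : ℤ) : ℝ :=
  2 / (π * (2 * m + 1)) * rexp (-(π ^ 2 * v * (2 * m + 1) ^ 2 / 2))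

theorem two_mul_add_one_ne (m : ℤ) : (2 * (m : ℝ) + 1) ≠ 0 := by
  have : (2 * m + 1 : ℤ) ≠ 0 := by omega
  exact_mod_cast this

theorem one_le_abs_two_mul_add_one (m : ℤ) : 1 ≤ |2 * (m : ℝ) + 1| := by
  have h : (2 * m + 1 : ℤ) ≠ 0 := by omega
  have : 1 ≤ |2 * m + 1| := Int.one_le_abs h
  exact_mod_cast this

theorem integral_cos_shift (m : ℤ) (s : ℝ) :
    ∫ x in (0 : ℝ)..1, Real.cos (π * (2 * m + 1) * (x - s)) =
      2 / (π * (2 * m + 1)) * Real.sin (π * (2 * m + 1) * s) := by
  have hm := two_mul_add_one_ne m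
  have hc : π * (2 * (m : ℝ) + 1) ≠ 0 := mul_ne_zero Real.pi_ne_zero hm
  have h1 : ∀ x : ℝ, HasDerivAt (fun x => Real.sin (π * (2 * m + 1) * (x - s)) / (π * (2 * m + 1)))
      (Real.cos (π * (2 * m + 1) * (x - s))) x := by
    intro x
    have h0 : HasDerivAt (fun x : ℝ => π * (2 * (m : ℝ) + 1) * (x - s)) (π * (2 * m + 1)) x := by
      simpa using ((hasDerivAt_id x).sub_const s).const_mul (π * (2 * (m : ℝ) + 1))
    have h2 := (h0.sin).div_const (π * (2 * (m : ℝ) + 1))
    refine h2.congr_deriv ?_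
    field_simp
  rw [intervalIntegral.integral_eq_sub_of_hasDerivAt (fun x _ => h1 x)
    ((by fun_prop : Continuous fun x : ℝ => Real.cos (π * (2 * m + 1) * (x - s))).intervalIntegrable _ _)]
  have h2 : Real.sin (π * (2 * m + 1) * (1 - s)) = Real.sin (π * (2 * m + 1) * s) := by
    have : π * (2 * (m : ℝ) + 1) * (1 - s) = (π - π * (2 * m + 1) * s) + m * (2 * π) := by ring
    rw [this, Real.sin_add_int_mul_two_pi, Real.sin_pi_sub]
  rw [h2]
  have h3 : Real.sin (π * (2 * (m : ℝ) + 1) * (0 - s)) = -Real.sin (π * (2 * m + 1) * s) := by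
    rw [← Real.sin_neg]; congr 1; ring
  rw [h3]
  field_simp
  ring

theorem summable_coef_exp (v : ℝ) (hv : 0 < v) :
    Summable (fun m : ℤ => rexp (-(π ^ 2 * v * (2 * m + 1) ^ 2 / 2))) := by
  have hs0 := summable_gauss_int (2 * π ^ 2 * v) (by positivity) (1 / 2)
  refine hs0.congr (fun m => ?_)
  congr 1
  ring

theorem summable_abs_coef (v : ℝ) (hv : 0 < v) : Summable (fun m : ℤ => |coef v m|) := by
  refine Summable.of_nonneg_of_le (fun _ => abs_nonneg _) (fun m => ?_) (summable_coef_exp v hv)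
  unfold coef
  rw [abs_mul, abs_of_pos (Real.exp_pos _)]
  refine mul_le_of_le_one_left (Real.exp_pos _).le ?_
  rw [abs_div, abs_mul, abs_of_pos Real.pi_pos, abs_two, div_le_one (by
    have := one_le_abs_two_mul_add_one m
    positivity)]
  have := one_le_abs_two_mul_add_one m
  nlinarith [Real.pi_gt_three]

/-- Fourier expansion of the smoothed square wave. -/
theorem smooth_eq_tsum (v : ℝ≥0) (hv : v ≠ 0) (s : ℝ) :
    smooth v s = ∑' m : ℤ, coef v m * Real.sin (π * (2 * m + 1) * s) := by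
  have hv0 : (0 : ℝ) < v := by positivity
  have hint : Integrable (fun t => gaussianPDFReal 0 v (t - s) * wave t) := by
    refine Integrable.mul_bdd (c := 1) ((integrable_gaussianPDFReal 0 v).comp_sub_right s)
      measurable_wave.aestronglyMeasurable ?_
    exact Filter.Eventually.of_forall (fun x => by rw [Real.norm_eq_abs, abs_wave])
  have hsum := hint.hasSum_intervalIntegral_comp_add_int
  rw [← smooth_eq_integral v hv s] at hsum
  -- the continuous pieces
  let f : ℤ → C(ℝ, ℝ) := fun k =>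
    ⟨fun x => (√(2 * π * v))⁻¹ * ((-1 : ℝ) ^ k * rexp (-((x - s) + k) ^ 2 / (2 * v))), by fun_prop⟩
  have hpiece : ∀ k : ℤ, ∫ x in (0 : ℝ)..1, gaussianPDFReal 0 v (x + k - s) * wave (x + k) =
      ∫ x in (0 : ℝ)..1, f k x := by
    intro k
    refine intervalIntegral.integral_congr_ae ?_
    have h1 : ∀ᵐ x : ℝ, x ≠ 1 := by
      simp [ae_iff, measure_singleton]
    filter_upwards [h1] with x hx1 hx
    rw [Set.uIoc_of_le (zero_le_one (α := ℝ))] at hx
    rw [wave_add_int ⟨hx.1, lt_of_le_of_ne hx.2 hx1⟩]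
    simp only [f, gaussianPDFReal, ContinuousMap.coe_mk, sub_zero]
    rw [show x + k - s = (x - s) + k by ring]
    ring
  simp_rw [hpiece] at hsum
  -- summability of the norms
  set K : TopologicalSpace.Compacts ℝ := ⟨Set.uIcc (0 : ℝ) 1, isCompact_uIcc⟩ with hK
  have hnorm : Summable (fun k : ℤ => ‖(f k).restrict K‖) := by
    have hb := (summable_exp_abs_int (1 / (2 * v) / 2) (by positivity)).mul_left
      ((√(2 * π * v))⁻¹ * rexp (1 / (2 * v) * (1 + |s|) ^ 2))
    refine Summable.of_nonneg_of_le (fun _ => norm_nonneg _) (fun k => ?_) hb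
    rw [ContinuousMap.norm_le _ (by positivity)]
    rintro ⟨x, hx⟩
    have hx' : x ∈ Set.uIcc (0 : ℝ) 1 := hx
    rw [Set.uIcc_of_le (zero_le_one (α := ℝ))] at hx'
    simp only [f, ContinuousMap.restrict_apply, ContinuousMap.coe_mk]
    rw [norm_mul, norm_mul, norm_zpow, norm_neg, norm_one, one_zpow, one_mul, norm_inv,
      Real.norm_eq_abs, Real.norm_eq_abs, abs_of_nonneg (Real.sqrt_nonneg _),
      abs_of_pos (Real.exp_pos _), mul_assoc (√(2 * π * v))⁻¹]
    refine mul_le_mul_of_nonneg_left ?_ (inv_nonneg.2 (Real.sqrt_nonneg _))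
    have h2 := exp_gauss_le (1 / (2 * v)) (by positivity) (x - s) k
    have h3 : rexp (-((x - s) + k) ^ 2 / (2 * v)) = rexp (-(1 / (2 * v) * ((x - s) + k) ^ 2)) := by
      congr 1; field_simp
    rw [h3]
    refine h2.trans (mul_le_mul_of_nonneg_right ?_ (Real.exp_pos _).le)
    apply Real.exp_le_exp.2
    refine mul_le_mul_of_nonneg_left ?_ (by positivity)
    have h4 : |x - s| ≤ 1 + |s| := by
      calc |x - s| ≤ |x| + |s| := abs_sub _ _
        _ ≤ 1 + |s| := by
          have : |x| ≤ 1 := abs_le.2 ⟨by linarith [hx'.1], hx'.2⟩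
          linarith
    calc (x - s) ^ 2 = |x - s| ^ 2 := (sq_abs _).symm
      _ ≤ (1 + |s|) ^ 2 := pow_le_pow_left₀ (abs_nonneg _) h4 2
  have hsum2 := intervalIntegral.hasSum_intervalIntegral_of_summable_norm (a := (0 : ℝ)) (b := (1 : ℝ)) hnorm
  have hval := hsum.unique hsum2
  rw [hval]
  -- second expansion
  let g : ℤ → C(ℝ, ℝ) := fun m =>
    ⟨fun x => rexp (-(π ^ 2 * v * (2 * m + 1) ^ 2 / 2)) * Real.cos (π * (2 * m + 1) * (x - s)),
      by fun_prop⟩
  have hfg : ∀ x : ℝ, ∑' k : ℤ, f k x = ∑' m : ℤ, g m x := by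
    intro x
    simp only [f, g, ContinuousMap.coe_mk]
    rw [tsum_mul_left, theta_alt v hv0 (x - s), ← mul_assoc, inv_mul_cancel₀ (by positivity), one_mul]
  simp_rw [hfg]
  have hnorm2 : Summable (fun m : ℤ => ‖(g m).restrict K‖) := by
    refine Summable.of_nonneg_of_le (fun _ => norm_nonneg _) (fun m => ?_) (summable_coef_exp v hv0)
    rw [ContinuousMap.norm_le _ (by positivity)]
    rintro ⟨x, hx⟩
    simp only [g, ContinuousMap.restrict_apply, ContinuousMap.coe_mk]
    rw [norm_mul, Real.norm_eq_abs, Real.norm_eq_abs, abs_of_pos (Real.exp_pos _)]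
    exact mul_le_of_le_one_right (Real.exp_pos _).le (Real.abs_cos_le_one _)
  have hsum3 := intervalIntegral.hasSum_intervalIntegral_of_summable_norm (a := (0 : ℝ)) (b := (1 : ℝ)) hnorm2
  rw [← hsum3.tsum_eq]
  refine tsum_congr (fun m => ?_)
  simp only [g, ContinuousMap.coe_mk]
  rw [intervalIntegral.integral_const_mul, integral_cos_shift]
  unfold coef
  ring

end Pool.Agent.MP_9b0515_pr
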