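import Pool.Agent.Lib.MP_9b0515_pr.PosSum
import Pool.Agent.Lib.MP_9b0515_pr.Wave

set_option autoImplicit false

open Real MeasureTheory ProbabilityTheory
open scoped NNReal

namespace Pool.Agent.MP_9b0515_pr

/-- the two-variable summand after both Poisson summations -/
noncomputable def W (n : ℕ) (δ : ℝ) (x : ℤ × ℤ) : ℝ :=
  (1 / (2 * (x.1 : ℝ) + 1)) * rexp (-(π ^ 2 * n * δ * (2 * x.1 + 1) ^ 2)) *
    rexp (-(2 * π ^ 2 * (1 + x.2 * n) ^ 2 / n)) *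
    Real.sinh ((2 * x.1 + 1) * (2 * π ^ 2 * δ * (1 + x.2 * n)))

theorem W_bound (n : ℕ) (hn : 3 ≤ n) (δ : ℝ) (hδ0 : 0 < δ) (hδ : δ < 1 / 2) (x : ℤ × ℤ) :
    |W n δ x| ≤ rexp (-(π ^ 2 * n * δ / 4 * (2 * x.1 + 1) ^ 2)) *
      rexp (-(4 * π ^ 2 / (3 * n) * (1 + x.2 * n) ^ 2)) := by
  have hn' : (3 : ℝ) ≤ n := by exact_mod_cast hn
  obtain ⟨m, p⟩ := x
  simp only [W]
  set k : ℝ := 2 * (m : ℝ) + 1 with hk
  set L : ℝ := 1 + (p : ℝ) * n with hL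
  have hk1 : 1 ≤ |k| := one_le_abs_two_mul_add_one m
  have h1 : |Real.sinh (k * (2 * π ^ 2 * δ * L))| ≤ rexp (2 * π ^ 2 * δ * (|k| * |L|)) := by
    have e0 : |k * (2 * π ^ 2 * δ * L)| = 2 * π ^ 2 * δ * (|k| * |L|) := by
      rw [abs_mul, abs_mul, abs_of_pos (by positivity : 0 < 2 * π ^ 2 * δ)]; ring
    rw [Real.abs_sinh, e0, Real.sinh_eq]
    have := Real.exp_pos (2 * π ^ 2 * δ * (|k| * |L|))
    have := Real.exp_pos (-(2 * π ^ 2 * δ * (|k| * |L|)))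
    linarith
  rw [abs_mul, abs_mul, abs_mul, abs_of_pos (Real.exp_pos _), abs_of_pos (Real.exp_pos _)]
  have h2 : |1 / k| ≤ 1 := by
    rw [abs_div, abs_one, div_le_one (by linarith)]
    exact hk1
  calc |1 / k| * rexp (-(π ^ 2 * n * δ * k ^ 2)) * rexp (-(2 * π ^ 2 * L ^ 2 / n)) *
        |Real.sinh (k * (2 * π ^ 2 * δ * L))|
      ≤ 1 * rexp (-(π ^ 2 * n * δ * k ^ 2)) * rexp (-(2 * π ^ 2 * L ^ 2 / n)) *
        rexp (2 * π ^ 2 * δ * (|k| * |L|)) := by gcongr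
    _ = rexp (-(π ^ 2 * n * δ * k ^ 2) + -(2 * π ^ 2 * L ^ 2 / n) + 2 * π ^ 2 * δ * (|k| * |L|)) := by
        rw [one_mul, ← Real.exp_add, ← Real.exp_add]
    _ ≤ rexp (-(π ^ 2 * n * δ / 4 * k ^ 2) + -(4 * π ^ 2 / (3 * n) * L ^ 2)) := by
        apply Real.exp_le_exp.2
        have hsq : 0 ≤ (3 * n * |k| - 4 * |L|) ^ 2 / (12 * n) := by positivity
        have e1 : (3 * n * |k| - 4 * |L|) ^ 2 / (12 * n) =
            3 * n / 4 * k ^ 2 - 2 * (|k| * |L|) + 4 / (3 * n) * L ^ 2 := by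
          have hk2 : k ^ 2 = |k| ^ 2 := (sq_abs k).symm
          have hL2 : L ^ 2 = |L| ^ 2 := (sq_abs L).symm
          rw [hk2, hL2]
          field_simp
          ring
        rw [e1] at hsq
        have h3 : δ * (2 * (|k| * |L|)) ≤ δ * (3 * n / 4 * k ^ 2 + 4 / (3 * n) * L ^ 2) :=
          mul_le_mul_of_nonneg_left (by linarith) hδ0.le
        have h4 : δ * (4 / (3 * n) * L ^ 2) ≤ 1 / 2 * (4 / (3 * n) * L ^ 2) :=
          mul_le_mul_of_nonneg_right hδ.le (by positivity)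
        have h5 := mul_le_mul_of_nonneg_left (h3) (by positivity : (0 : ℝ) ≤ π ^ 2)
        have h6 := mul_le_mul_of_nonneg_left (h4) (by positivity : (0 : ℝ) ≤ π ^ 2)
        have e2 : 2 * π ^ 2 * L ^ 2 / n = π ^ 2 * (1 / 2 * (4 / (3 * n) * L ^ 2)) +
            4 * π ^ 2 / (3 * n) * L ^ 2 := by
          field_simp
          ring
        rw [e2]
        nlinarith
    _ = _ := by rw [Real.exp_add]

theorem summable_W (n : ℕ) (hn : 3 ≤ n) (δ : ℝ) (hδ0 : 0 < δ) (hδ : δ < 1 / 2) :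
    Summable (W n δ) := by
  have hn' : (3 : ℝ) ≤ n := by exact_mod_cast hn
  have h1 : Summable (fun m : ℤ => rexp (-(π ^ 2 * n * δ / 4 * (2 * m + 1) ^ 2))) := by
    have hs0 := summable_gauss_int (π ^ 2 * n * δ) (by positivity) (1 / 2)
    refine hs0.congr (fun m => ?_)
    congr 1
    ring
  have h2 : Summable (fun p : ℤ => rexp (-(4 * π ^ 2 / (3 * n) * (1 + p * n) ^ 2))) := by
    have hs0 := summable_gauss_int (4 * π ^ 2 * n / 3) (by positivity) (1 / n)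
    refine hs0.congr (fun m => ?_)
    congr 1
    field_simp
  refine Summable.of_norm_bounded (h1.mul_of_nonneg h2 (fun _ => (Real.exp_pos _).le)
    (fun _ => (Real.exp_pos _).le)) (fun x => ?_)
  rw [Real.norm_eq_abs]
  exact W_bound n hn δ hδ0 hδ x

theorem tsum_int_eq_V (a x : ℝ) (ha : 0 < a) :
    ∑' m : ℤ, (1 / (2 * (m : ℝ) + 1)) * rexp (-(a * (2 * m + 1) ^ 2)) *
      Real.sinh ((2 * m + 1) * x) = 2 * V a x := by
  have hV := summable_V a x ha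
  have e : ∀ k : ℕ, (1 / (2 * ((-((k : ℤ) + 1) : ℤ) : ℝ) + 1)) *
      rexp (-(a * (2 * ((-((k : ℤ) + 1) : ℤ) : ℝ) + 1) ^ 2)) *
      Real.sinh ((2 * ((-((k : ℤ) + 1) : ℤ) : ℝ) + 1) * x) =
      (1 / (2 * (k : ℝ) + 1)) * rexp (-(a * (2 * k + 1) ^ 2)) * Real.sinh ((2 * k + 1) * x) := by
    intro k
    have e1 : (2 * ((-((k : ℤ) + 1) : ℤ) : ℝ) + 1) = -(2 * (k : ℝ) + 1) := by push_cast; ring
    rw [e1, neg_mul, Real.sinh_neg, neg_sq, div_neg]
    ring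
  rw [tsum_of_nat_of_neg_add_one (f := fun m : ℤ => (1 / (2 * (m : ℝ) + 1)) *
    rexp (-(a * (2 * m + 1) ^ 2)) * Real.sinh ((2 * m + 1) * x))]
  · simp_rw [e]
    simp only [Int.cast_natCast]
    unfold V
    ring
  · simpa using hV
  · simp_rw [e]
    exact hV

theorem neg_one_zpow_mul_sin (m j : ℤ) (ρ : ℝ) :
    (-1 : ℝ) ^ j * Real.sin (π * (2 * m + 1) * (ρ * j)) =
      -Real.sin (π * (2 * m + 1) * (1 - ρ) * j) := by
  have e1 : π * (2 * (m : ℝ) + 1) * (ρ * j) =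
      -(π * (2 * m + 1) * (1 - ρ) * j) + ((2 * m + 1) * j : ℤ) * π := by
    push_cast; ring
  rw [e1, Real.sin_add_int_mul_pi, Real.sin_neg]
  have e2 : (-1 : ℝ) ^ ((2 * m + 1) * j) = (-1 : ℝ) ^ j := by
    rw [zpow_mul]
    congr 1
    exact Odd.neg_one_zpow ⟨m, rfl⟩
  rw [e2]
  have e3 : (-1 : ℝ) ^ j * (-1 : ℝ) ^ j = 1 := by
    rw [← mul_zpow]; simp
  rw [← mul_assoc, e3]
  ring

/-- for fixed `m`, the sum over `j` -/
theorem inner_sum (n : ℕ) (hn : 3 ≤ n) (ρ : ℝ) (v : ℝ) (hv : v = (1 - ρ ^ 2) * n) (m : ℤ) :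
    ∑' j : ℤ, (-1 : ℝ) ^ j * (coef v m * Real.sin (π * (2 * m + 1) * (ρ * j))) *
      rexp (-(j : ℝ) ^ 2 / (2 * n)) * Real.sin (2 * π / n * j) =
    -(√(2 * π * n) * (2 / π)) * ∑' p : ℤ, W n (1 - ρ) (m, p) := by
  have hn' : (3 : ℝ) ≤ n := by exact_mod_cast hn
  have hn0 : (0 : ℝ) < n := by linarith
  set μ : ℝ := π * (2 * m + 1) * (1 - ρ) with hμ
  set θ : ℝ := 2 * π / n with hθ
  have h1 : ∀ j : ℤ, (-1 : ℝ) ^ j * (coef v m * Real.sin (π * (2 * m + 1) * (ρ * j))) *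
      rexp (-(j : ℝ) ^ 2 / (2 * n)) * Real.sin (θ * j) =
      -(coef v m / 2) * (rexp (-(j : ℝ) ^ 2 / (2 * n)) * Real.cos ((θ - μ) * j) -
        rexp (-(j : ℝ) ^ 2 / (2 * n)) * Real.cos ((θ + μ) * j)) := by
    intro j
    have e1 := neg_one_zpow_mul_sin m j ρ
    have e2 : (-1 : ℝ) ^ j * (coef v m * Real.sin (π * (2 * m + 1) * (ρ * j))) =
        coef v m * ((-1 : ℝ) ^ j * Real.sin (π * (2 * m + 1) * (ρ * j))) := by ring
    rw [e2, e1]
    have e3 : Real.cos ((θ - μ) * j) - Real.cos ((θ + μ) * j) =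
        2 * (Real.sin (μ * j) * Real.sin (θ * j)) := by
      rw [show (θ - μ) * j = θ * j - μ * j by ring, show (θ + μ) * j = θ * j + μ * j by ring,
        Real.cos_sub, Real.cos_add]
      ring
    rw [← mul_sub, e3]
    ring
  have hsc : ∀ β : ℝ, Summable (fun j : ℤ => rexp (-(j : ℝ) ^ 2 / (2 * n)) * Real.cos (β * j)) := by
    intro β
    have hs0 := summable_gauss_int (1 / (2 * n)) (by positivity) 0
    refine Summable.of_norm_bounded hs0 (fun j => ?_)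
    rw [norm_mul, Real.norm_eq_abs, Real.norm_eq_abs, abs_of_pos (Real.exp_pos _)]
    have e : rexp (-(j : ℝ) ^ 2 / (2 * n)) = rexp (-(1 / (2 * n) * (0 + j) ^ 2)) := by
      congr 1; ring
    rw [e]
    exact mul_le_of_le_one_right (Real.exp_pos _).le (Real.abs_cos_le_one _)
  simp_rw [h1]
  rw [tsum_mul_left, (hsc _).tsum_sub (hsc _), theta_cos n hn0, theta_cos n hn0, ← mul_sub]
  have hsp : ∀ β : ℝ, Summable (fun p : ℤ => rexp (-(n * (β + 2 * π * p) ^ 2 / 2))) := by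
    intro β
    have hs0 := summable_gauss_int (2 * π ^ 2 * n) (by positivity) (β / (2 * π))
    refine hs0.congr (fun p => ?_)
    congr 1
    field_simp
  rw [← (hsp _).tsum_sub (hsp _)]
  rw [← mul_assoc, ← tsum_mul_left, ← tsum_mul_left]
  refine tsum_congr (fun p => ?_)
  simp only [W]
  set k : ℝ := 2 * (m : ℝ) + 1 with hk
  have hk0 : k ≠ 0 := two_mul_add_one_ne m
  set L : ℝ := 1 + (p : ℝ) * n with hL
  have ht1 : θ - μ + 2 * π * p = 2 * π * L / n - μ := by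
    rw [hθ, hL]; field_simp; ring
  have ht2 : θ + μ + 2 * π * p = 2 * π * L / n + μ := by
    rw [hθ, hL]; field_simp; ring
  rw [ht1, ht2]
  have e4 : rexp (-(n * (2 * π * L / n - μ) ^ 2 / 2)) =
      rexp (-(2 * π ^ 2 * L ^ 2 / n)) * rexp (-(n * μ ^ 2 / 2)) * rexp (2 * π * L * μ) := by
    rw [← Real.exp_add, ← Real.exp_add]; congr 1; field_simp; ring
  have e5 : rexp (-(n * (2 * π * L / n + μ) ^ 2 / 2)) =
      rexp (-(2 * π ^ 2 * L ^ 2 / n)) * rexp (-(n * μ ^ 2 / 2)) * rexp (-(2 * π * L * μ)) := by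
    rw [← Real.exp_add, ← Real.exp_add]; congr 1; field_simp; ring
  rw [e4, e5]
  have e6 : coef v m = 2 / (π * k) * rexp (-(π ^ 2 * v * k ^ 2 / 2)) := rfl
  have e7 : rexp (-(π ^ 2 * v * k ^ 2 / 2)) * rexp (-(n * μ ^ 2 / 2)) =
      rexp (-(π ^ 2 * n * (1 - ρ) * k ^ 2)) := by
    rw [← Real.exp_add]; congr 1; rw [hv, hμ]; ring
  have e8 : k * (2 * π ^ 2 * (1 - ρ) * L) = 2 * π * L * μ := by rw [hμ]; ring
  rw [e8, e6, Real.sinh_eq, ← e7]
  field_simp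

/-- The first variation has a strict sign. -/
theorem Q_neg (n : ℕ) (hn : 3 ≤ n) (ρ : ℝ) (hρ1 : 1 / 2 < ρ) (hρ2 : ρ < 1) (v : ℝ≥0)
    (hv : (v : ℝ) = (1 - ρ ^ 2) * n) :
    ∑' j : ℤ, (-1 : ℝ) ^ j * smooth v (ρ * j) * rexp (-(j : ℝ) ^ 2 / (2 * n)) *
      Real.sin (2 * π / n * j) < 0 := by
  have hn' : (3 : ℝ) ≤ n := by exact_mod_cast hn
  have hn0 : (0 : ℝ) < n := by linarith
  have hv0 : (0 : ℝ) < v := by
    rw [hv]
    apply mul_pos _ hn0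
    nlinarith
  have hvne : v ≠ 0 := by
    intro h; rw [h] at hv0; simp at hv0
  have hδ0 : 0 < 1 - ρ := by linarith
  have hδ : 1 - ρ < 1 / 2 := by linarith
  have h1 : ∀ j : ℤ, (-1 : ℝ) ^ j * smooth v (ρ * j) * rexp (-(j : ℝ) ^ 2 / (2 * n)) *
      Real.sin (2 * π / n * j) =
      ∑' m : ℤ, (-1 : ℝ) ^ j * (coef v m * Real.sin (π * (2 * m + 1) * (ρ * j))) *
        rexp (-(j : ℝ) ^ 2 / (2 * n)) * Real.sin (2 * π / n * j) := by
    intro j
    rw [smooth_eq_tsum v hvne, ← tsum_mul_left, ← tsum_mul_right, ← tsum_mul_right]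
  simp_rw [h1]
  have hsum : Summable (Function.uncurry (fun (m j : ℤ) =>
      (-1 : ℝ) ^ j * (coef v m * Real.sin (π * (2 * m + 1) * (ρ * j))) *
        rexp (-(j : ℝ) ^ 2 / (2 * n)) * Real.sin (2 * π / n * j))) := by
    have hs0 := summable_gauss_int (1 / (2 * n)) (by positivity) 0
    refine Summable.of_norm_bounded ((summable_abs_coef v hv0).mul_of_nonneg hs0
      (fun _ => abs_nonneg _) (fun _ => (Real.exp_pos _).le)) (fun x => ?_)
    obtain ⟨m, j⟩ := x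
    simp only [Function.uncurry, norm_mul, norm_zpow, norm_neg, norm_one, one_zpow, one_mul,
      Real.norm_eq_abs]
    rw [abs_of_pos (Real.exp_pos _)]
    have e : rexp (-(j : ℝ) ^ 2 / (2 * n)) = rexp (-(1 / (2 * n) * (0 + j) ^ 2)) := by
      congr 1; ring
    rw [e]
    have hs1 := Real.abs_sin_le_one (π * (2 * m + 1) * (ρ * j))
    have hs2 := Real.abs_sin_le_one (2 * π / n * j)
    calc |coef v m| * |Real.sin (π * (2 * m + 1) * (ρ * j))| *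
          rexp (-(1 / (2 * n) * (0 + j) ^ 2)) * |Real.sin (2 * π / n * j)|
        ≤ |coef v m| * 1 * rexp (-(1 / (2 * n) * (0 + j) ^ 2)) * 1 := by gcongr
      _ = _ := by ring
  rw [hsum.tsum_comm]
  simp_rw [inner_sum n hn ρ v hv]
  rw [tsum_mul_left]
  have hW := summable_W n hn (1 - ρ) hδ0 hδ
  have hcomm : ∑' m : ℤ, ∑' p : ℤ, W n (1 - ρ) (m, p) = ∑' p : ℤ, ∑' m : ℤ, W n (1 - ρ) (m, p) :=
    (hW.tsum_comm (f := fun m p => W n (1 - ρ) (m, p))).symm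
  rw [hcomm]
  have ha : 0 < π ^ 2 * n * (1 - ρ) := by positivity
  have hinner : ∀ p : ℤ, ∑' m : ℤ, W n (1 - ρ) (m, p) =
      2 * (rexp (-(2 * π ^ 2 * (1 + p * n) ^ 2 / n)) *
      V (π ^ 2 * n * (1 - ρ)) (2 * π ^ 2 * (1 - ρ) * (1 + p * n))) := by
    intro p
    have e := tsum_int_eq_V (π ^ 2 * n * (1 - ρ)) (2 * π ^ 2 * (1 - ρ) * (1 + p * n)) ha
    have e2 : 2 * (rexp (-(2 * π ^ 2 * (1 + p * n) ^ 2 / n)) *
      V (π ^ 2 * n * (1 - ρ)) (2 * π ^ 2 * (1 - ρ) * (1 + p * n))) =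
      rexp (-(2 * π ^ 2 * (1 + p * n) ^ 2 / n)) *
      (2 * V (π ^ 2 * n * (1 - ρ)) (2 * π ^ 2 * (1 - ρ) * (1 + p * n))) := by ring
    rw [e2, ← e, ← tsum_mul_left]
    refine tsum_congr (fun m => ?_)
    simp only [W]
    ring
  simp_rw [hinner]
  rw [tsum_mul_left]
  have hsV : Summable (fun p : ℤ => rexp (-(2 * π ^ 2 * (1 + p * n) ^ 2 / n)) *
      V (π ^ 2 * n * (1 - ρ)) (2 * π ^ 2 * (1 - ρ) * (1 + p * n))) := by
    have h2 : Summable (fun p : ℤ => ∑' m : ℤ, W n (1 - ρ) (m, p)) := hW.prod_symm.prod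
    simp_rw [hinner] at h2
    refine (h2.mul_left (1 / 2)).congr (fun p => ?_)
    ring
  have hpos := pos_sum n hn (1 - ρ) hδ0 hδ hsV
  have hc : 0 < √(2 * π * n) * (2 / π) := by positivity
  nlinarith [mul_pos hc hpos]

end Pool.Agent.MP_9b0515_pr
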