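import Mathlib

set_option autoImplicit false

open Real Complex

namespace Pool.Agent.MP_9b0515_pr

/-- Poisson summation for a Gaussian with a complex linear term. -/
theorem poisson_gauss (v : ℝ) (hv : 0 < v) (z : ℂ) :
    ∑' k : ℤ, cexp (-(k : ℂ) ^ 2 / (2 * v) + z * k) =
      (√(2 * π * v) : ℂ) * ∑' m : ℤ, cexp ((v : ℂ) / 2 * (z - 2 * π * I * m) ^ 2) := by
  have hpi : (π : ℂ) ≠ 0 := by exact_mod_cast Real.pi_ne_zero
  have hvc : (v : ℂ) ≠ 0 := by exact_mod_cast hv.ne'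
  have ha : 0 < (((1 / (2 * π * v) : ℝ) : ℂ)).re := by
    rw [ofReal_re]; positivity
  have h := Complex.tsum_exp_neg_quadratic ha (z / (2 * π))
  have h1 : ∀ k : ℤ, cexp (-(k : ℂ) ^ 2 / (2 * v) + z * k) =
      cexp (-π * ((1 / (2 * π * v) : ℝ) : ℂ) * (k : ℂ) ^ 2 + 2 * π * (z / (2 * π)) * k) := by
    intro k
    congr 1
    push_cast
    field_simp
  have h2 : ∀ m : ℤ, cexp ((v : ℂ) / 2 * (z - 2 * π * I * m) ^ 2) =
      cexp (-π / ((1 / (2 * π * v) : ℝ) : ℂ) * ((m : ℂ) + I * (z / (2 * π))) ^ 2) := by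
    intro m
    congr 1
    push_cast
    field_simp
    ring_nf
    simp only [I_sq]
    ring
  simp_rw [h1, h2]
  rw [h]
  congr 1
  have h3 : (((1 / (2 * π * v) : ℝ) : ℂ)) ^ (1 / 2 : ℂ) = ((√(1 / (2 * π * v)) : ℝ) : ℂ) := by
    rw [Real.sqrt_eq_rpow, ofReal_cpow (by positivity)]
    norm_num
  rw [h3, ← ofReal_one, ← ofReal_div]
  congr 1
  rw [one_div, one_div, Real.sqrt_inv, inv_inv]

end Pool.Agent.MP_9b0515_pr

namespace Pool.Agent.MP_9b0515_pr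

theorem summable_exp_abs_int (c : ℝ) (hc : 0 < c) :
    Summable (fun k : ℤ => rexp (-(c * |(k : ℝ)|))) := by
  rw [summable_int_iff_summable_nat_and_neg]
  have h : Summable (fun k : ℕ => rexp ((k : ℝ) * (-c))) :=
    Real.summable_exp_nat_mul_iff.2 (by linarith)
  constructor
  · refine h.congr (fun k => ?_)
    congr 1
    simp only [Int.cast_natCast, Nat.abs_cast]
    ring
  · refine h.congr (fun k => ?_)
    congr 1
    simp only [Int.cast_neg, Int.cast_natCast, abs_neg, Nat.abs_cast]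
    ring

theorem abs_int_le_sq (k : ℤ) : |(k : ℝ)| ≤ (k : ℝ) ^ 2 := by
  have h : |k| ≤ k ^ 2 := by
    rcases eq_or_ne k 0 with h0 | h0
    · simp [h0]
    · have h1 : 1 ≤ |k| := Int.one_le_abs h0
      calc |k| = |k| * 1 := by ring
        _ ≤ |k| * |k| := by nlinarith
        _ = k ^ 2 := by rw [← sq, sq_abs]
  exact_mod_cast h

theorem exp_gauss_le (c : ℝ) (hc : 0 < c) (x : ℝ) (k : ℤ) :
    rexp (-(c * (x + k) ^ 2)) ≤ rexp (c * x ^ 2) * rexp (-(c / 2 * |(k : ℝ)|)) := by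
  rw [← Real.exp_add]
  apply Real.exp_le_exp.2
  have h1 := abs_int_le_sq k
  have h2 : (k : ℝ) ^ 2 ≤ 2 * (x + k) ^ 2 + 2 * x ^ 2 := by nlinarith [sq_nonneg (2 * x + (k : ℝ))]
  have h3 : c * |(k : ℝ)| ≤ c * (2 * (x + k) ^ 2 + 2 * x ^ 2) :=
    mul_le_mul_of_nonneg_left (h1.trans h2) hc.le
  linarith

theorem summable_gauss_int (c : ℝ) (hc : 0 < c) (x : ℝ) :
    Summable (fun k : ℤ => rexp (-(c * (x + k) ^ 2))) :=
  Summable.of_nonneg_of_le (fun _ => (Real.exp_pos _).le) (exp_gauss_le c hc x)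
    ((summable_exp_abs_int (c / 2) (by linarith)).mul_left _)

/-- Poisson summation for the alternating sum of a Gaussian. -/
theorem theta_alt (v : ℝ) (hv : 0 < v) (x : ℝ) :
    ∑' k : ℤ, (-1 : ℝ) ^ k * rexp (-(x + k) ^ 2 / (2 * v)) =
      √(2 * π * v) * ∑' m : ℤ, rexp (-(π ^ 2 * v * (2 * m + 1) ^ 2 / 2)) *
        Real.cos (π * (2 * m + 1) * x) := by
  have hvc : (v : ℂ) ≠ 0 := by exact_mod_cast hv.ne'
  set z : ℂ := -(x : ℂ) / v + π * I with hz
  have h := poisson_gauss v hv z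
  have h1 : ∀ k : ℤ, (((-1 : ℝ) ^ k * rexp (-(x + k) ^ 2 / (2 * v)) : ℝ) : ℂ) =
      cexp (-(x : ℂ) ^ 2 / (2 * v)) * cexp (-(k : ℂ) ^ 2 / (2 * v) + z * k) := by
    intro k
    have e1 : ((-1 : ℂ)) ^ k = cexp (k * (π * I)) := by
      rw [Complex.exp_int_mul, Complex.exp_pi_mul_I]
    push_cast
    rw [e1, ← Complex.exp_add, ← Complex.exp_add]
    congr 1
    rw [hz]
    field_simp
    ring
  have h2 : ∀ m : ℤ, cexp (-(x : ℂ) ^ 2 / (2 * v)) * cexp ((v : ℂ) / 2 * (z - 2 * π * I * (m + 1 : ℤ)) ^ 2) =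
      cexp ((-(π ^ 2 * v * (2 * m + 1) ^ 2 / 2) : ℝ)) * cexp ((π * (2 * m + 1) * x : ℝ) * I) := by
    intro m
    rw [← Complex.exp_add, ← Complex.exp_add]
    congr 1
    rw [hz]
    push_cast
    field_simp
    ring_nf
    simp only [I_sq, mul_neg, mul_one]
    ring
  have h3 : ((∑' k : ℤ, (-1 : ℝ) ^ k * rexp (-(x + k) ^ 2 / (2 * v)) : ℝ) : ℂ) =
      (√(2 * π * v) : ℂ) * ∑' m : ℤ,
        (cexp ((-(π ^ 2 * v * (2 * m + 1) ^ 2 / 2) : ℝ)) * cexp ((π * (2 * m + 1) * x : ℝ) * I)) := by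
    rw [Complex.ofReal_tsum]
    simp_rw [h1]
    rw [tsum_mul_left, h, ← (Equiv.addRight (1 : ℤ)).tsum_eq
      (fun m : ℤ => cexp ((v : ℂ) / 2 * (z - 2 * π * I * m) ^ 2)), mul_left_comm, ← tsum_mul_left]
    congr 1
    refine tsum_congr (fun m => ?_)
    exact h2 m
  have hs : Summable (fun m : ℤ =>
      cexp ((-(π ^ 2 * v * (2 * m + 1) ^ 2 / 2) : ℝ)) * cexp ((π * (2 * m + 1) * x : ℝ) * I)) := by
    have hs0 := summable_gauss_int (2 * π ^ 2 * v) (by positivity) (1 / 2)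
    refine Summable.of_norm_bounded hs0 (fun m => ?_)
    rw [norm_mul, Complex.norm_exp_ofReal_mul_I, mul_one, ← Complex.ofReal_exp,
      Complex.norm_real, Real.norm_eq_abs, abs_of_pos (Real.exp_pos _)]
    apply le_of_eq
    congr 1
    ring
  have h4 := congrArg Complex.re h3
  rw [Complex.ofReal_re, Complex.re_ofReal_mul, Complex.re_tsum hs] at h4
  rw [h4]
  congr 1
  refine tsum_congr (fun m => ?_)
  rw [← Complex.ofReal_exp, Complex.re_ofReal_mul, Complex.exp_ofReal_mul_I_re]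

/-- Poisson summation for a Gaussian times a cosine. -/
theorem theta_cos (v : ℝ) (hv : 0 < v) (β : ℝ) :
    ∑' j : ℤ, rexp (-(j : ℝ) ^ 2 / (2 * v)) * Real.cos (β * j) =
      √(2 * π * v) * ∑' p : ℤ, rexp (-(v * (β + 2 * π * p) ^ 2 / 2)) := by
  have hvc : (v : ℂ) ≠ 0 := by exact_mod_cast hv.ne'
  have h := poisson_gauss v hv (β * I)
  have h1 : ∀ j : ℤ, cexp (-(j : ℂ) ^ 2 / (2 * v) + (β * I) * j) =
      cexp ((-(j : ℝ) ^ 2 / (2 * v) : ℝ)) * cexp ((β * j : ℝ) * I) := by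
    intro j
    rw [← Complex.exp_add]
    congr 1
    push_cast
    ring
  have h2 : ∀ p : ℤ, cexp ((v : ℂ) / 2 * ((β * I) - 2 * π * I * (-p : ℤ)) ^ 2) =
      ((rexp (-(v * (β + 2 * π * p) ^ 2 / 2)) : ℝ) : ℂ) := by
    intro p
    rw [Complex.ofReal_exp]
    congr 1
    push_cast
    ring_nf
    simp only [I_sq]
    ring
  have h3 : ∑' j : ℤ, (cexp ((-(j : ℝ) ^ 2 / (2 * v) : ℝ)) * cexp ((β * j : ℝ) * I)) =
      ((√(2 * π * v) * ∑' p : ℤ, rexp (-(v * (β + 2 * π * p) ^ 2 / 2)) : ℝ) : ℂ) := by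
    rw [← tsum_congr h1, h, ← (Equiv.neg ℤ).tsum_eq
      (fun m : ℤ => cexp ((v : ℂ) / 2 * ((β * I) - 2 * π * I * m) ^ 2))]
    rw [Complex.ofReal_mul, Complex.ofReal_tsum]
    congr 1
    refine tsum_congr (fun p => ?_)
    exact h2 p
  have hs : Summable (fun j : ℤ =>
      (cexp ((-(j : ℝ) ^ 2 / (2 * v) : ℝ)) * cexp ((β * j : ℝ) * I))) := by
    have hs0 := summable_gauss_int (1 / (2 * v)) (by positivity) 0
    refine Summable.of_norm_bounded hs0 (fun m => ?_)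
    rw [norm_mul, Complex.norm_exp_ofReal_mul_I, mul_one, ← Complex.ofReal_exp,
      Complex.norm_real, Real.norm_eq_abs, abs_of_pos (Real.exp_pos _)]
    apply le_of_eq
    congr 1
    ring
  have h4 := congrArg Complex.re h3
  rw [Complex.ofReal_re, Complex.re_tsum hs] at h4
  rw [← h4]
  refine tsum_congr (fun m => ?_)
  rw [← Complex.ofReal_exp, Complex.re_ofReal_mul, Complex.exp_ofReal_mul_I_re]

end Pool.Agent.MP_9b0515_pr
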